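import Mathlib

/-!
# A set of arcs whose busy gaps form a run is connected

Proof. Otherwise let `A` be the reachable part of some `u` and `B` the rest, both nonempty. Walk along the gaps from a gap
of an arc of one part to a gap of an arc of the other part: at two consecutive gaps `g`, `g + 1` (or at one gap) arcs
`x` of the first and `y` of the second part are found, `lo x ≤ hi y + 1`, `lo y ≤ hi x + 1`, so they are adjacent.
-/

set_option autoImplicit false

namespace Pool.Agent.Lib.MP_534936_co.HW

theorem conn_of_run {V : Type} (G : SimpleGraph V) (lo hi : V → ℕ) (S : Set V) (hne : S.Nonempty)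
    (hlh : ∀ u ∈ S, lo u ≤ hi u)
    (hG : ∀ u ∈ S, ∀ w ∈ S, u ≠ w → lo u ≤ hi w + 1 → lo w ≤ hi u + 1 → G.Adj u w)
    (hrun : ∀ u ∈ S, ∀ w ∈ S, ∀ g, lo u ≤ g → g ≤ hi w → ∃ x ∈ S, lo x ≤ g ∧ g ≤ hi x) :
    (G.induce S).Connected := by
  have adj : ∀ x y : S, lo x ≤ hi y + 1 → lo y ≤ hi x + 1 → (G.induce S).Reachable x y := by
    intro x y h1 h2
    by_cases h : x = y
    · rw [h]
    · have h3 : (G.induce S).Adj x y := hG x x.2 y y.2 (fun e => h (Subtype.ext e)) h1 h2
      exact h3.reachable
  have key : ∀ u w : S, ∀ n, lo u + n ≤ hi w → ∀ x : S, lo x ≤ lo u + n → lo u + n ≤ hi x →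
      (G.induce S).Reachable u x := by
    intro u w n
    induction n with
    | zero =>
      intro _ x h1 h2
      have h3 := hlh u u.2
      exact adj u x (by omega) (by omega)
    | succ n ih =>
      intro hn x h1 h2
      obtain ⟨y, hy, h3, h4⟩ := hrun u u.2 w w.2 (lo u + n) (by omega) (by omega)
      exact (ih (by omega) ⟨y, hy⟩ h3 h4).trans
        (adj ⟨y, hy⟩ x (by change lo y ≤ _; omega) (by change _ ≤ hi y + 1; omega))
  have main : ∀ u w : S, lo u ≤ hi w → (G.induce S).Reachable u w := by
    intro u w h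
    have hw := hlh w w.2
    exact key u w (max (lo u) (lo w) - lo u) (by omega) w (by omega) (by omega)
  obtain ⟨a, ha⟩ := hne
  rw [SimpleGraph.connected_iff]
  refine ⟨fun u w => ?_, ⟨⟨a, ha⟩⟩⟩
  by_cases h : lo u ≤ hi w
  · exact main u w h
  · have h1 := hlh u u.2
    have h2 := hlh w w.2
    exact (main w u (by omega)).symm

end Pool.Agent.Lib.MP_534936_co.HW
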