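import Pool.Agent.Lib.MP_534936_co.HW.Base

/-!
# The mirror image of a labelled line
-/

set_option autoImplicit false

namespace Pool.Agent.Lib.MP_534936_co.HW

variable {O ι Z : Type}

theorem mirror_ok (D : Line O ι Z) (hD : D.Ok) : D.mirror.Ok where
  lohi o := by
    have := hD.lohi o
    show D.T - D.hi o ≤ D.T - D.lo o
    omega
  hiT o := by
    show D.T - D.lo o ≤ D.T
    omega
  rootP i hi := by
    have := hD.rootR i hi
    show D.T - D.hi (D.root i) = 0
    omega
  rootR j hj := by
    have := hD.rootP j (not_not.1 hj)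
    show D.T - D.lo (D.root j) = D.T
    omega
  relP i j h := hD.relR j i h
  relR i j h := not_not.2 (hD.relP j i h)
  nestR j k := hD.nestP j k
  nestP i k := hD.nestR i k
  m1 x := by
    have := hD.mT x
    show 1 ≤ D.T + 1 - D.m x
    omega
  mT x := by
    have := hD.m1 x
    show D.T + 1 - D.m x ≤ D.T
    omega
  unclo x := by
    have := hD.unchi x
    show D.T - D.hi (D.unc x) = 0
    omega
  unchi x := by
    have := hD.unclo x
    show D.T - D.lo (D.unc x) = D.T
    omega
  pLlo x := by
    have := hD.pRhi x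
    show D.T - D.hi (D.pR x) = 0
    omega
  pLhi x := by
    have := hD.pRlo x
    have := hD.mT x
    show D.T - D.lo (D.pR x) + 1 = D.T + 1 - D.m x
    omega
  pRlo x := by
    have := hD.pLhi x
    have := hD.mT x
    show D.T - D.hi (D.pL x) = D.T + 1 - D.m x
    omega
  pRhi x := by
    have := hD.pLlo x
    show D.T - D.lo (D.pL x) = D.T
    omega
  uu := hD.uu
  ll := hD.rr
  rr := hD.ll
  ul := hD.ur
  ur := hD.ul
  lr x y := (hD.lr y x).symm
  ru := hD.ru
  rl := hD.rr'
  rr' := hD.rl

theorem busy_mirror (D : Line O ι Z) (hD : D.Ok) (σ : O → Option ι) (i : ι) (g : ℕ) (hg : g ≤ D.T) :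
    D.mirror.Busy σ i g ↔ D.Busy σ i (D.T - g) := by
  constructor
  · rintro ⟨o, ho, h1, h2⟩
    have h3 := hD.lohi o
    have h4 := hD.hiT o
    have h1' : D.T - D.hi o ≤ g := h1
    have h2' : g ≤ D.T - D.lo o := h2
    exact ⟨o, ho, by omega, by omega⟩
  · rintro ⟨o, ho, h1, h2⟩
    have h3 := hD.lohi o
    have h4 := hD.hiT o
    refine ⟨o, ho, ?_, ?_⟩
    · show D.T - D.hi o ≤ g
      omega
    · show g ≤ D.T - D.lo o
      omega

/-- reindexing `(i, g) ↦ (i, T - 1 - g)` -/
theorem card_up_mirror [Fintype ι] (D : Line O ι Z) (hD : D.Ok) (σ : O → Option ι) :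
    (D.mirror.up σ).card = (D.down σ).card := by
  classical
  refine Finset.card_nbij' (fun z => (z.1, D.T - 1 - z.2)) (fun z => (z.1, D.T - 1 - z.2))
    ?_ ?_ ?_ ?_
  · rintro ⟨i, g⟩ hz
    simp only [Line.up, Finset.coe_filter, Set.mem_ofPred_eq, Finset.mem_product, Finset.mem_univ,
      true_and, Finset.mem_range] at hz
    obtain ⟨hg, hP, hn, hb⟩ := hz
    have hg' : g < D.T := hg
    rw [busy_mirror D hD σ i g (by omega)] at hn
    rw [busy_mirror D hD σ i (g + 1) (by omega)] at hb
    simp only [Line.down, Finset.coe_filter, Set.mem_ofPred_eq, Finset.mem_product,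
      Finset.mem_univ, true_and, Finset.mem_range]
    have e1 : D.T - (g + 1) = D.T - 1 - g := by omega
    have e2 : D.T - g = D.T - 1 - g + 1 := by omega
    rw [e1] at hb
    rw [e2] at hn
    exact ⟨by omega, hP, hb, hn⟩
  · rintro ⟨i, g⟩ hz
    simp only [Line.down, Finset.coe_filter, Set.mem_ofPred_eq, Finset.mem_product,
      Finset.mem_univ, true_and, Finset.mem_range] at hz
    obtain ⟨hg, hP, hb, hn⟩ := hz
    simp only [Line.up, Finset.coe_filter, Set.mem_ofPred_eq, Finset.mem_product, Finset.mem_univ,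
      true_and, Finset.mem_range]
    refine ⟨?_, hP, ?_, ?_⟩
    · show D.T - 1 - g < D.T
      omega
    · rw [busy_mirror D hD σ i (D.T - 1 - g) (by omega)]
      have e : D.T - (D.T - 1 - g) = g + 1 := by omega
      rw [e]; exact hn
    · rw [busy_mirror D hD σ i (D.T - 1 - g + 1) (by omega)]
      have e : D.T - (D.T - 1 - g + 1) = g := by omega
      rw [e]; exact hb
  · rintro ⟨i, g⟩ hz
    simp only [Line.up, Finset.coe_filter, Set.mem_ofPred_eq, Finset.mem_product, Finset.mem_univ,
      true_and, Finset.mem_range] at hz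
    have hg' : g < D.T := hz.1
    have e : D.T - 1 - (D.T - 1 - g) = g := by omega
    simp only [e]
  · rintro ⟨i, g⟩ hz
    simp only [Line.down, Finset.coe_filter, Set.mem_ofPred_eq, Finset.mem_product,
      Finset.mem_univ, true_and, Finset.mem_range] at hz
    have hg' : g < D.T := hz.1
    have e : D.T - 1 - (D.T - 1 - g) = g := by omega
    simp only [e]

theorem card_down_mirror [Fintype ι] (D : Line O ι Z) (hD : D.Ok) (σ : O → Option ι) :
    (D.mirror.down σ).card = (D.up σ).card := by
  classical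
  refine Finset.card_nbij' (fun z => (z.1, D.T - 1 - z.2)) (fun z => (z.1, D.T - 1 - z.2))
    ?_ ?_ ?_ ?_
  · rintro ⟨i, g⟩ hz
    simp only [Line.down, Finset.coe_filter, Set.mem_ofPred_eq, Finset.mem_product,
      Finset.mem_univ, true_and, Finset.mem_range] at hz
    obtain ⟨hg, hP, hb, hn⟩ := hz
    have hg' : g < D.T := hg
    rw [busy_mirror D hD σ i g (by omega)] at hb
    rw [busy_mirror D hD σ i (g + 1) (by omega)] at hn
    simp only [Line.up, Finset.coe_filter, Set.mem_ofPred_eq, Finset.mem_product,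
      Finset.mem_univ, true_and, Finset.mem_range]
    have e1 : D.T - (g + 1) = D.T - 1 - g := by omega
    have e2 : D.T - g = D.T - 1 - g + 1 := by omega
    rw [e1] at hn
    rw [e2] at hb
    exact ⟨by omega, not_not.1 hP, hn, hb⟩
  · rintro ⟨i, g⟩ hz
    simp only [Line.up, Finset.coe_filter, Set.mem_ofPred_eq, Finset.mem_product,
      Finset.mem_univ, true_and, Finset.mem_range] at hz
    obtain ⟨hg, hP, hn, hb⟩ := hz
    simp only [Line.down, Finset.coe_filter, Set.mem_ofPred_eq, Finset.mem_product,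
      Finset.mem_univ, true_and, Finset.mem_range]
    refine ⟨?_, not_not.2 hP, ?_, ?_⟩
    · show D.T - 1 - g < D.T
      omega
    · rw [busy_mirror D hD σ i (D.T - 1 - g) (by omega)]
      have e : D.T - (D.T - 1 - g) = g + 1 := by omega
      rw [e]; exact hb
    · rw [busy_mirror D hD σ i (D.T - 1 - g + 1) (by omega)]
      have e : D.T - (D.T - 1 - g + 1) = g := by omega
      rw [e]; exact hn
  · rintro ⟨i, g⟩ hz
    simp only [Line.down, Finset.coe_filter, Set.mem_ofPred_eq, Finset.mem_product,
      Finset.mem_univ, true_and, Finset.mem_range] at hz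
    have hg' : g < D.T := hz.1
    have e : D.T - 1 - (D.T - 1 - g) = g := by omega
    simp only [e]
  · rintro ⟨i, g⟩ hz
    simp only [Line.up, Finset.coe_filter, Set.mem_ofPred_eq, Finset.mem_product,
      Finset.mem_univ, true_and, Finset.mem_range] at hz
    have hg' : g < D.T := hz.1
    have e : D.T - 1 - (D.T - 1 - g) = g := by omega
    simp only [e]

theorem pre_mirror (D : Line O ι Z) (hD : D.Ok) (σ : O → Option ι) : D.mirror.Pre σ ↔ D.Pre σ := by
  constructor
  · intro h
    refine ⟨fun x hx => ⟨(h.one x hx).2, (h.one x hx).1⟩, h.rt, ?_⟩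
    intro i j hij g hg
    have h1 := h.cov j i hij (D.T - g) (show D.T - g ≤ D.T by omega)
    rw [busy_mirror D hD σ j (D.T - g) (by omega), busy_mirror D hD σ i (D.T - g) (by omega)] at h1
    have e : D.T - (D.T - g) = g := by omega
    rw [e] at h1
    exact h1.symm
  · intro h
    refine ⟨fun x hx => ⟨(h.one x hx).2, (h.one x hx).1⟩, h.rt, ?_⟩
    intro i j hij g hg
    have hg' : g ≤ D.T := hg
    rw [busy_mirror D hD σ i g hg', busy_mirror D hD σ j g hg']
    exact (h.cov j i hij (D.T - g) (by omega)).symm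

theorem lok_mirror (D : Line O ι Z) (σ : O → Option ι) : D.mirror.Lok σ ↔ D.Rok σ :=
  ⟨fun h x i hx => not_not.1 (h x i hx), fun h x i hx => not_not.2 (h x i hx)⟩

theorem rok_mirror (D : Line O ι Z) (σ : O → Option ι) : D.mirror.Rok σ ↔ D.Lok σ :=
  ⟨fun h x i hx => h x i hx, fun h x i hx => h x i hx⟩

end Pool.Agent.Lib.MP_534936_co.HW
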