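import Pool.Agent.Lib.MP_534936_co.HW.Base

/-!
# The move of components of `P` labels into holes of `R` labels

Proof. For a `P` label `i` and a busy gap `g` let `cst i g` be the least `s` such that `i` is busy on `[s, g]`
(`Nat.find`). All gaps of an object `o` of `i` have the same `cst`. The component of the rising edge `(i, s)` is
`{o : σ o = some i, cst i (lo o) = s + 1}`. New assignment: an object `o` of the `P` label `i` with
`(i, cst i (lo o) - 1) = f z` for some `z` with `z ∈ down`, `z` above `A` (unique, `f` is injective) goes to the label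
`z.1`; an object of a component in `A` which is not in the image becomes unassigned; everything else stays.
* New busy sets: `P` label `i`: the old ones minus the components in `A`; `R` labels only gain.
* `cov`: `rel i j`, both idle at `g` afterwards. Then `j` was idle at `g`, so `i` was busy at `g`, in a component
  `w ∈ A`. Let `[h + 1, g]` be the idle run of `j` before `g`; `i` is busy on it by `cov`, so `h + 1 > w.2` (in
  particular `h + 1 ≥ 1`) and `j` is busy at `h`: `z = (j, h) ∈ down`, `Con w z`, and `f z` contains `h + 1, …, g`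
  (its label is busy wherever `j` is idle), so `j` is busy at `g` afterwards.
* `pot`: the new rising edges are old ones which are not in `A`; the new falling edges are old ones: if `j` is busy at
  `g` by a moved object of the component of `f z`, label `i`, `rel i j`, and idle at `g + 1` and was idle at `g`, then
  `i` is busy at `g + 1` by `cov`, the same component, so `j` is busy at `g + 1` afterwards, contradiction.
* roots of `P` labels have `lo = 0`, their component is not in `A`; uncut dummies have `lo = 0` as well.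
-/

set_option autoImplicit false

namespace Pool.Agent.Lib.MP_534936_co.HW

variable {O ι Z : Type}

/-- the gap `g` lies in the component which starts after the rising edge `w` -/
private def Cmp (D : Line O ι Z) (σ : O → Option ι) (w : ι × ℕ) (g : ℕ) : Prop :=
  w.2 < g ∧ ∀ g', w.2 < g' → g' ≤ g → D.Busy σ w.1 g'

private def Mvd (D : Line O ι Z) (σ : O → Option ι) (A : Finset (ι × ℕ)) (o : O) (w : ι × ℕ) : Prop :=
  w ∈ A ∧ σ o = some w.1 ∧ Cmp D σ w (D.lo o)

private def Nbr [Fintype ι] (D : Line O ι Z) (σ : O → Option ι) (A : Finset (ι × ℕ)) (z : ι × ℕ) : Prop :=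
  z ∈ D.down σ ∧ ∃ w ∈ A, D.Con σ w z

private theorem mem_up [Fintype ι] (D : Line O ι Z) (σ : O → Option ι) (w : ι × ℕ) :
    w ∈ D.up σ ↔ w.2 < D.T ∧ D.P w.1 ∧ ¬ D.Busy σ w.1 w.2 ∧ D.Busy σ w.1 (w.2 + 1) := by
  classical
  unfold Line.up
  rw [Finset.mem_filter, Finset.mem_product, Finset.mem_range]
  simp

private theorem mem_down [Fintype ι] (D : Line O ι Z) (σ : O → Option ι) (w : ι × ℕ) :
    w ∈ D.down σ ↔ w.2 < D.T ∧ ¬ D.P w.1 ∧ D.Busy σ w.1 w.2 ∧ ¬ D.Busy σ w.1 (w.2 + 1) := by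
  classical
  unfold Line.down
  rw [Finset.mem_filter, Finset.mem_product, Finset.mem_range]
  simp

/-- going back along an object -/
private theorem cmp_lo (D : Line O ι Z) (σ : O → Option ι) (w : ι × ℕ) (hw : ¬ D.Busy σ w.1 w.2) (o : O)
    (ho : σ o = some w.1) (g : ℕ) (h1 : D.lo o ≤ g) (h2 : g ≤ D.hi o) (h : Cmp D σ w g) :
    Cmp D σ w (D.lo o) := by
  obtain ⟨h3, h4⟩ := h
  refine ⟨?_, fun g' a b => h4 g' a (b.trans h1)⟩
  by_contra hc
  exact hw ⟨o, ho, by omega, by omega⟩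

private theorem cmp_ext (D : Line O ι Z) (σ : O → Option ι) (w : ι × ℕ) (o : O)
    (ho : σ o = some w.1) (g : ℕ) (h1 : D.lo o ≤ g) (h2 : g ≤ D.hi o) (h : Cmp D σ w (D.lo o)) :
    Cmp D σ w g := by
  obtain ⟨h3, h4⟩ := h
  refine ⟨by omega, fun g' a b => ?_⟩
  by_cases hc : g' ≤ D.lo o
  · exact h4 g' a hc
  · exact ⟨o, ho, by omega, by omega⟩

private theorem cmp_uniq (D : Line O ι Z) (σ : O → Option ι) (w w' : ι × ℕ) (hw : ¬ D.Busy σ w.1 w.2)
    (hw' : ¬ D.Busy σ w'.1 w'.2) (he : w.1 = w'.1) (g : ℕ) (h : Cmp D σ w g) (h' : Cmp D σ w' g) : w = w' := by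
  refine Prod.ext he ?_
  rcases lt_trichotomy w.2 w'.2 with hc | hc | hc
  · exact absurd (he ▸ h.2 w'.2 hc h'.1.le) hw'
  · exact hc
  · exact absurd (he ▸ h'.2 w.2 hc h.1.le) hw

open scoped Classical in
private noncomputable def nsg [Fintype ι] (D : Line O ι Z) (σ : O → Option ι) (A : Finset (ι × ℕ))
    (f : ι × ℕ → ι × ℕ) (o : O) : Option ι :=
  if h : ∃ z, Nbr D σ A z ∧ Mvd D σ A o (f z) then some (Classical.choose h).1
  else if ∃ w, Mvd D σ A o w then none else σ o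

private theorem nsg_some [Fintype ι] (D : Line O ι Z) (σ : O → Option ι) (A : Finset (ι × ℕ))
    (f : ι × ℕ → ι × ℕ) (o : O) (k : ι) (h : nsg D σ A f o = some k) :
    (∃ z, Nbr D σ A z ∧ Mvd D σ A o (f z) ∧ k = z.1) ∨ ((¬ ∃ w, Mvd D σ A o w) ∧ σ o = some k) := by
  unfold nsg at h
  split_ifs at h with h1 h2
  · left
    obtain ⟨a, b⟩ := Classical.choose_spec h1
    exact ⟨_, a, b, (Option.some.inj h).symm⟩
  · exact Or.inr ⟨h2, h⟩

private theorem nsg_not [Fintype ι] (D : Line O ι Z) (σ : O → Option ι) (A : Finset (ι × ℕ))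
    (f : ι × ℕ → ι × ℕ) (o : O) (h : ¬ ∃ w, Mvd D σ A o w) : nsg D σ A f o = σ o := by
  unfold nsg
  rw [dif_neg (fun ⟨z, _, b⟩ => h ⟨_, b⟩), if_neg h]

private theorem nsg_mvd [Fintype ι] (D : Line O ι Z) (σ : O → Option ι)
    (A : Finset (ι × ℕ)) (hA : A ⊆ D.up σ) (f : ι × ℕ → ι × ℕ)
    (hinj : ∀ z ∈ D.down σ, ∀ z' ∈ D.down σ, (∃ w ∈ A, D.Con σ w z) → (∃ w ∈ A, D.Con σ w z') →
      f z = f z' → z = z') (o : O) (z : ι × ℕ) (hz : Nbr D σ A z) (h : Mvd D σ A o (f z)) :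
    nsg D σ A f o = some z.1 := by
  unfold nsg
  have h1 : ∃ z, Nbr D σ A z ∧ Mvd D σ A o (f z) := ⟨z, hz, h⟩
  rw [dif_pos h1]
  obtain ⟨a, b⟩ := Classical.choose_spec h1
  have hu := (mem_up D σ _).1 (hA h.1)
  have hu' := (mem_up D σ _).1 (hA b.1)
  have he : (f (Classical.choose h1)).1 = (f z).1 := Option.some.inj (b.2.1.symm.trans h.2.1)
  have := cmp_uniq D σ _ _ hu'.2.2.1 hu.2.2.1 he _ b.2.2 h.2.2
  rw [hinj _ a.1 _ hz.1 a.2 hz.2 this]

/-- the exchange of components. `A` is a nonempty set of components of `P` labels, `f` is defined on the holes above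
`A` -/
theorem pmove [Fintype ι] (D : Line O ι Z) (hD : D.Ok) (σ : O → Option ι) (hp : D.Pre σ) (hL : D.Lok σ)
    (A : Finset (ι × ℕ)) (hA : A ⊆ D.up σ) (hne : A.Nonempty) (f : ι × ℕ → ι × ℕ)
    (hf : ∀ z ∈ D.down σ, (∃ w ∈ A, D.Con σ w z) → f z ∈ A ∧ D.Con σ (f z) z)
    (hinj : ∀ z ∈ D.down σ, ∀ z' ∈ D.down σ, (∃ w ∈ A, D.Con σ w z) → (∃ w ∈ A, D.Con σ w z') →
      f z = f z' → z = z') :
    ∃ σ' : O → Option ι, D.Pre σ' ∧ D.Lok σ' ∧ D.pot σ' < D.pot σ := by
  classical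
  have idle : ∀ w ∈ A, ¬ D.Busy σ w.1 w.2 := fun w hw => ((mem_up D σ w).1 (hA hw)).2.2.1
  have Pw : ∀ w ∈ A, D.P w.1 := fun w hw => ((mem_up D σ w).1 (hA hw)).2.1
  have Rz : ∀ z, Nbr D σ A z → ¬ D.P z.1 := fun z hz => ((mem_down D σ z).1 hz.1).2.1
  have fA : ∀ z, Nbr D σ A z → f z ∈ A := fun z hz => (hf z hz.1 hz.2).1
  have fC : ∀ z, Nbr D σ A z → D.Con σ (f z) z := fun z hz => (hf z hz.1 hz.2).2
  set s := nsg D σ A f with hs
  have notR : ∀ o j, σ o = some j → ¬ D.P j → ¬ ∃ w, Mvd D σ A o w := by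
    rintro o j h hj ⟨w, hw, h', _⟩
    exact hj (Option.some.inj (h.symm.trans h') ▸ Pw w hw)
  have notlo : ∀ o, D.lo o = 0 → ¬ ∃ w, Mvd D σ A o w := by
    rintro o h ⟨w, _, _, h', _⟩
    omega
  have bP : ∀ i g, D.P i → (D.Busy s i g ↔ D.Busy σ i g ∧ ¬ ∃ w ∈ A, w.1 = i ∧ Cmp D σ w g) := by
    intro i g hi
    constructor
    · rintro ⟨o, ho, h1, h2⟩
      rcases nsg_some D σ A f o i ho with ⟨z, hz, _, rfl⟩ | ⟨hn, ho'⟩
      · exact absurd hi (Rz z hz)
      · refine ⟨⟨o, ho', h1, h2⟩, ?_⟩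
        rintro ⟨w, hw, rfl, hc⟩
        exact hn ⟨w, hw, ho', cmp_lo D σ w (idle w hw) o ho' g h1 h2 hc⟩
    · rintro ⟨⟨o, ho, h1, h2⟩, hn⟩
      refine ⟨o, ?_, h1, h2⟩
      rw [hs, nsg_not D σ A f o, ho]
      rintro ⟨w, hw, h3, h4⟩
      have h5 : w.1 = i := Option.some.inj (h3.symm.trans ho)
      exact hn ⟨w, hw, h5, cmp_ext D σ w o h3 g h1 h2 h4⟩
  have bR1 : ∀ j g, ¬ D.P j → D.Busy σ j g → D.Busy s j g := by
    rintro j g hj ⟨o, ho, h1, h2⟩
    refine ⟨o, ?_, h1, h2⟩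
    rw [hs, nsg_not D σ A f o (notR o j ho hj), ho]
  have bR2 : ∀ j g, D.Busy s j g → D.Busy σ j g ∨ ∃ z, Nbr D σ A z ∧ z.1 = j ∧ Cmp D σ (f z) g := by
    rintro j g ⟨o, ho, h1, h2⟩
    rcases nsg_some D σ A f o j ho with ⟨z, hz, hm, rfl⟩ | ⟨hn, ho'⟩
    · exact Or.inr ⟨z, hz, rfl, cmp_ext D σ _ o hm.2.1 g h1 h2 hm.2.2⟩
    · exact Or.inl ⟨o, ho', h1, h2⟩
  have bR3 : ∀ z g, Nbr D σ A z → Cmp D σ (f z) g → D.Busy s z.1 g := by
    intro z g hz hc
    obtain ⟨o, ho, h1, h2⟩ := hc.2 g hc.1 le_rfl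
    refine ⟨o, ?_, h1, h2⟩
    exact nsg_mvd D σ A hA f hinj o z hz
      ⟨fA z hz, ho, cmp_lo D σ _ (idle _ (fA z hz)) o ho g h1 h2 hc⟩
  refine ⟨s, ⟨?_, ?_, ?_⟩, ?_, ?_⟩
  · -- one
    have hnone : ∀ o, σ o = none → s o = none := by
      intro o ho
      rw [hs, nsg_not D σ A f o, ho]
      rintro ⟨w, _, h, _⟩
      rw [ho] at h
      exact absurd h (by simp)
    intro x hx
    have h1 : σ (D.unc x) ≠ none := fun h => hx (hnone _ h)
    obtain ⟨h2, h3⟩ := hp.one x h1
    exact ⟨hnone _ h2, hnone _ h3⟩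
  · -- rt
    intro i
    rcases hp.rt i with h | ⟨x, h⟩
    · left
      by_cases hi : D.P i
      · rw [hs, nsg_not D σ A f _ (notlo _ (hD.rootP i hi)), h]
      · rw [hs, nsg_not D σ A f _ (notR _ i h hi), h]
    · right
      exact ⟨x, by rw [hs, nsg_not D σ A f _ (notlo _ (hD.unclo x)), h]⟩
  · -- cov
    intro i j hij g hg
    by_contra hcon
    push Not at hcon
    obtain ⟨h1, h2⟩ := hcon
    have hi := hD.relP i j hij
    have hj := hD.relR i j hij
    have hjn : ¬ D.Busy σ j g := fun h => h2 (bR1 j g hj h)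
    have hib : D.Busy σ i g := (hp.cov i j hij g hg).resolve_right hjn
    rw [bP i g hi] at h1
    have h3 : ∃ w ∈ A, w.1 = i ∧ Cmp D σ w g := by
      by_contra h; exact h1 ⟨hib, h⟩
    obtain ⟨w, hw, rfl, hc⟩ := h3
    -- the last busy gap of `j` before `g`
    have hex : ∃ n, w.2 ≤ n ∧ n < g ∧ D.Busy σ j n ∧ ∀ m, n < m → m ≤ g → ¬ D.Busy σ j m := by
      have h0 : D.Busy σ j w.2 :=
        (hp.cov w.1 j hij w.2 (by have := hc.1; omega)).resolve_left (idle w hw)
      have key : ∀ d, (∃ n, w.2 ≤ n ∧ n < g ∧ g - n ≤ d ∧ D.Busy σ j n) →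
          ∃ n, w.2 ≤ n ∧ n < g ∧ D.Busy σ j n ∧ ∀ m, n < m → m ≤ g → ¬ D.Busy σ j m := by
        intro d
        induction d with
        | zero => rintro ⟨n, _, b, c, _⟩; omega
        | succ d ih =>
          rintro ⟨n, a, b, c, e⟩
          by_cases hh : ∀ m, n < m → m ≤ g → ¬ D.Busy σ j m
          · exact ⟨n, a, b, e, hh⟩
          · push Not at hh
            obtain ⟨m, h5, h6, h7⟩ := hh
            have h8 : m ≠ g := by rintro rfl; exact hjn h7
            exact ih ⟨m, by omega, by omega, by omega, h7⟩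
      exact key (g - w.2) ⟨w.2, le_rfl, hc.1, le_rfl, h0⟩
    obtain ⟨n, hn1, hn2, hn3, hn4⟩ := hex
    have hz : Nbr D σ A (j, n) := by
      refine ⟨(mem_down D σ _).2 ⟨by show n < D.T; omega, hj, hn3, hn4 (n + 1) (by omega) (by omega)⟩, w, hw, hij,
        hn1, fun g' a b => hc.2 g' a ?_⟩
      have : g' ≤ n + 1 := b
      omega
    have hc1 := fC _ hz
    apply h2
    refine bR3 (j, n) g hz ⟨?_, fun g' a b => ?_⟩
    · have := hc1.2.1
      have h9 : (f (j, n)).2 ≤ n := this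
      omega
    · by_cases hh : g' ≤ n + 1
      · exact hc1.2.2 g' a hh
      · exact (hp.cov _ j hc1.1 g' (by omega)).resolve_right (hn4 g' (by omega) b)
  · -- Lok
    intro x i h
    rcases nsg_some D σ A f _ i h with ⟨z, hz, _, rfl⟩ | ⟨_, h'⟩
    · exact Rz z hz
    · exact hL x i h'
  · -- pot
    have hup : D.up s ⊆ D.up σ \ A := by
      intro v hv
      obtain ⟨a, b, c, d⟩ := (mem_up D s v).1 hv
      rw [bP _ _ b] at c d
      obtain ⟨d1, d2⟩ := d
      have hni : ¬ D.Busy σ v.1 v.2 := by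
        intro hb
        have : ∃ w ∈ A, w.1 = v.1 ∧ Cmp D σ w v.2 := by
          by_contra h; exact c ⟨hb, h⟩
        obtain ⟨w, hw, he, hc⟩ := this
        refine d2 ⟨w, hw, he, by have := hc.1; omega, fun g' h1 h2 => ?_⟩
        by_cases hh : g' ≤ v.2
        · exact hc.2 g' h1 hh
        · have : g' = v.2 + 1 := by omega
          rw [this, he]; exact d1
      rw [Finset.mem_sdiff]
      refine ⟨(mem_up D σ v).2 ⟨a, b, hni, d1⟩, fun hvA => d2 ⟨v, hvA, rfl, by omega, fun g' h1 h2 => ?_⟩⟩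
      have : g' = v.2 + 1 := by omega
      rw [this]; exact d1
    have hdn : D.down s ⊆ D.down σ := by
      intro v hv
      obtain ⟨a, b, c, d⟩ := (mem_down D s v).1 hv
      have hni : ¬ D.Busy σ v.1 (v.2 + 1) := fun h => d (bR1 _ _ b h)
      refine (mem_down D σ v).2 ⟨a, b, ?_, hni⟩
      rcases bR2 _ _ c with h | ⟨z, hz, he, hc⟩
      · exact h
      · exfalso
        have hr := (fC z hz).1
        rw [he] at hr
        have hb := (hp.cov _ _ hr (v.2 + 1) (by omega)).resolve_right hni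
        apply d
        rw [← he]
        refine bR3 z _ hz ⟨by have := hc.1; omega, fun g' h1 h2 => ?_⟩
        by_cases hh : g' ≤ v.2
        · exact hc.2 g' h1 hh
        · have : g' = v.2 + 1 := by omega
          rw [this]; exact hb
    have h1 : (D.up s).card ≤ (D.up σ \ A).card := Finset.card_le_card hup
    have h2 : (D.down s).card ≤ (D.down σ).card := Finset.card_le_card hdn
    have h3 : (D.up σ \ A).card + A.card = (D.up σ).card := Finset.card_sdiff_add_card_eq_card hA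
    have h4 : 0 < A.card := hne.card_pos
    unfold Line.pot
    omega

end Pool.Agent.Lib.MP_534936_co.HW
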