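import Mathlib

/-!
# The choice by Hall's theorem

Proof. Take `A'` a nonempty subset of `A` with `|N(A')| ≤ |A'|`, of minimal cardinality. If `Y ⊆ N(A')` had fewer than
`|Y|` neighbours in `A'`, then `A'' = A' \ N(Y)` has `N(A'') ⊆ N(A') \ Y`, so `|N(A'')| < |A''|`, contradiction. Hall
(`Finset.all_card_le_biUnion_card_iff_exists_injective`) for `N(A')` into `A'`.
-/

set_option autoImplicit false

namespace Pool.Agent.Lib.MP_534936_co.HW

open scoped Classical in
theorem hall_choice {α β : Type} (A : Finset α) (B : Finset β) (R : α → β → Prop) (hA : A.Nonempty)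
    (hcard : (B.filter (fun b => ∃ a ∈ A, R a b)).card ≤ A.card) :
    ∃ A' : Finset α, A' ⊆ A ∧ A'.Nonempty ∧ ∃ f : β → α,
      (∀ b ∈ B, (∃ a ∈ A', R a b) → f b ∈ A' ∧ R (f b) b) ∧
      (∀ b ∈ B, ∀ b' ∈ B, (∃ a ∈ A', R a b) → (∃ a ∈ A', R a b') → f b = f b' → b = b') := by
  -- a minimal nonempty set with few neighbours
  set F := A.powerset.filter (fun S => S.Nonempty ∧ (B.filter (fun b => ∃ a ∈ S, R a b)).card ≤ S.card) with hF
  have hFne : F.Nonempty := ⟨A, by
    rw [hF, Finset.mem_filter, Finset.mem_powerset]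
    exact ⟨Finset.Subset.refl _, hA, hcard⟩⟩
  obtain ⟨A', hA'F, hmin⟩ := F.exists_min_image (fun S => S.card) hFne
  rw [hF, Finset.mem_filter, Finset.mem_powerset] at hA'F
  obtain ⟨hsub, hne, hcd⟩ := hA'F
  refine ⟨A', hsub, hne, ?_⟩
  set N := B.filter (fun b => ∃ a ∈ A', R a b) with hN
  have hall : ∀ Y : Finset {b // b ∈ N}, Y.card ≤ (Y.biUnion (fun b => A'.filter (fun a => R a b.1))).card := by
    intro Y
    by_contra hlt
    push Not at hlt
    set M := Y.biUnion (fun b => A'.filter (fun a => R a b.1)) with hM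
    have hMA : M ⊆ A' := by
      intro a ha
      rw [hM, Finset.mem_biUnion] at ha
      obtain ⟨b, _, hb⟩ := ha
      exact (Finset.mem_filter.mp hb).1
    -- M is nonempty
    have hYne : Y.Nonempty := Finset.card_pos.mp (by omega)
    have hMne : M.Nonempty := by
      obtain ⟨b, hb⟩ := hYne
      obtain ⟨_, a, ha, hR⟩ := Finset.mem_filter.mp (hN ▸ b.2 : b.1 ∈ B.filter (fun b => ∃ a ∈ A', R a b))
      refine ⟨a, ?_⟩
      rw [hM, Finset.mem_biUnion]
      exact ⟨b, hb, Finset.mem_filter.mpr ⟨ha, hR⟩⟩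
    have hY' : (Y.map (Function.Embedding.subtype _)).card = Y.card := Finset.card_map _
    have hYN : Y.map (Function.Embedding.subtype _) ⊆ N := by
      intro b hb
      rw [Finset.mem_map] at hb
      obtain ⟨c, _, rfl⟩ := hb
      exact c.2
    have hNs : B.filter (fun b => ∃ a ∈ A' \ M, R a b) ⊆ N \ Y.map (Function.Embedding.subtype _) := by
      intro b hb
      rw [Finset.mem_filter] at hb
      obtain ⟨hbB, a, ha, hR⟩ := hb
      rw [Finset.mem_sdiff] at ha
      rw [Finset.mem_sdiff]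
      refine ⟨?_, ?_⟩
      · rw [hN, Finset.mem_filter]
        exact ⟨hbB, a, ha.1, hR⟩
      · intro hbY
        rw [Finset.mem_map] at hbY
        obtain ⟨c, hc, hcb⟩ := hbY
        apply ha.2
        rw [hM, Finset.mem_biUnion]
        refine ⟨c, hc, Finset.mem_filter.mpr ⟨ha.1, ?_⟩⟩
        have hcb' : c.1 = b := hcb
        rw [hcb']; exact hR
    have h1 := Finset.card_le_card hNs
    rw [Finset.card_sdiff_of_subset hYN, hY'] at h1
    have h2 : (A' \ M).card = A'.card - M.card := Finset.card_sdiff_of_subset hMA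
    have h3 : Y.card ≤ N.card := by rw [← hY']; exact Finset.card_le_card hYN
    have h4 : M.card ≤ A'.card := Finset.card_le_card hMA
    have h5 : 0 < M.card := Finset.card_pos.mpr hMne
    have h6 : (A' \ M) ∈ F := by
      rw [hF, Finset.mem_filter, Finset.mem_powerset]
      refine ⟨Finset.Subset.trans Finset.sdiff_subset hsub, ?_, ?_⟩
      · rw [← Finset.card_pos, h2]
        omega
      · omega
    have h7 := hmin _ h6
    omega
  obtain ⟨g, hg1, hg2⟩ := (Finset.all_card_le_biUnion_card_iff_exists_injective _).mp hall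
  obtain ⟨a0, ha0⟩ := hne
  have hmemN : ∀ b, b ∈ B → (∃ a ∈ A', R a b) → b ∈ N := fun b hb hR => by
    rw [hN, Finset.mem_filter]; exact ⟨hb, hR⟩
  refine ⟨fun b => if h : b ∈ N then g ⟨b, h⟩ else a0, ?_, ?_⟩
  · intro b hb hR
    have h := hmemN b hb hR
    simp only [h, dite_true]
    have h1 := hg2 ⟨b, h⟩
    exact Finset.mem_filter.mp h1
  · intro b hb b' hb' hR hR' heq
    have h := hmemN b hb hR
    have h' := hmemN b' hb' hR'
    simp only [h, h', dite_true] at heq
    have h1 := hg1 heq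
    exact congrArg Subtype.val h1

end Pool.Agent.Lib.MP_534936_co.HW
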