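import Pool.Agent.Lib.MP_534936_co.HW.Base

/-!
# The surgery at a dummy whose two parts are in `R` labels

Proof. `m = D.m x`.
* If `σ (pL x) = none` or `σ (pL x) = some j`: `σ' (unc x) = some j`, `σ' (pL x) = σ' (pR x) = none`, the rest as
  before. The label `j` becomes full, no falling edge. (`σ (unc x) = none` by `one`.)
* If `σ (pL x) = some j₁`, `j₁ ≠ j` (an `R` label by `Lok`): let `k` be the one of `j₁`, `j` with the smaller set of
  `rel`-neighbours (`nestR`), `k'` the other one. `σ' (unc x) = some k'`, `σ' (pL x) = σ' (pR x) = none`; another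
  object `o` with `σ o = some j` goes to `k` if `lo o < m` or (`o = root k` and `k = j`), else it becomes unassigned;
  an object `o` with `σ o = some j₁` goes to `k` if `m ≤ hi o`, else it becomes unassigned; the rest as before.
  `idle' k g → idle j g` for `g < m`, `idle' k g → idle j₁ g` for `g ≥ m`. So `cov` holds for `k`; `k'` is full.
  `rt`: if an uncut dummy was in `j` or `j₁` then it is in `k` now; otherwise both roots were in their labels (the
  root of `j₁` has `hi = T ≥ m`).
  `pot`: falling edges of `k` afterwards: at `g` with `g + 1 < m`: falling edge of `j` before. For `m ≤ g + 1`: map it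
  to the last falling edge `h ≤ g` of `j₁` before (exists: `j₁` was busy at `m - 1` by `pL x` and idle at `g + 1`; if
  `g + 1 = m` it is `g` itself). This is injective: if `g₁ < g₂` have the same image then `j₁` was idle on
  `[g₁ + 1, g₂ + 1]`, and the object which makes `k` busy at `g₂` comes from `j`, has `lo < m` or is a root with
  `hi = T`, so it crosses `g₁ + 1` or `g₂ + 1`, contradiction. `k'` has no falling edge.
-/

set_option autoImplicit false

namespace Pool.Agent.Lib.MP_534936_co.HW

variable {O ι Z : Type}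

open scoped Classical in
theorem mem_up [Fintype ι] (D : Line O ι Z) (σ : O → Option ι) (z : ι × ℕ) :
    z ∈ D.up σ ↔ z.2 < D.T ∧ D.P z.1 ∧ ¬ D.Busy σ z.1 z.2 ∧ D.Busy σ z.1 (z.2 + 1) := by
  unfold Line.up
  rw [Finset.mem_filter, Finset.mem_product, Finset.mem_range]
  constructor
  · rintro ⟨⟨-, h1⟩, h2⟩
    exact ⟨h1, h2⟩
  · rintro ⟨h1, h2⟩
    exact ⟨⟨Finset.mem_univ _, h1⟩, h2⟩

open scoped Classical in
theorem mem_down [Fintype ι] (D : Line O ι Z) (σ : O → Option ι) (z : ι × ℕ) :
    z ∈ D.down σ ↔ z.2 < D.T ∧ ¬ D.P z.1 ∧ D.Busy σ z.1 z.2 ∧ ¬ D.Busy σ z.1 (z.2 + 1) := by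
  unfold Line.down
  rw [Finset.mem_filter, Finset.mem_product, Finset.mem_range]
  constructor
  · rintro ⟨⟨-, h1⟩, h2⟩
    exact ⟨h1, h2⟩
  · rintro ⟨h1, h2⟩
    exact ⟨⟨Finset.mem_univ _, h1⟩, h2⟩

/-- if the `P` labels do not change then the rising edges do not change -/
theorem up_eq [Fintype ι] (D : Line O ι Z) (σ σ' : O → Option ι)
    (h : ∀ i o, D.P i → (σ' o = some i ↔ σ o = some i)) : D.up σ' = D.up σ := by
  have hb : ∀ i g, D.P i → (D.Busy σ' i g ↔ D.Busy σ i g) := by
    intro i g hi
    constructor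
    · rintro ⟨o, h1, h2⟩
      exact ⟨o, (h i o hi).1 h1, h2⟩
    · rintro ⟨o, h1, h2⟩
      exact ⟨o, (h i o hi).2 h1, h2⟩
  ext z
  rw [mem_up, mem_up]
  constructor
  · rintro ⟨h1, h2, h3, h4⟩
    exact ⟨h1, h2, fun h5 => h3 ((hb _ _ h2).2 h5), (hb _ _ h2).1 h4⟩
  · rintro ⟨h1, h2, h3, h4⟩
    exact ⟨h1, h2, fun h5 => h3 ((hb _ _ h2).1 h5), (hb _ _ h2).2 h4⟩

theorem surgery_same [Fintype ι] (D : Line O ι Z) (hD : D.Ok) (σ : O → Option ι) (hp : D.Pre σ) (hL : D.Lok σ)
    (x : Z) (j : ι) (hj : ¬ D.P j) (hx : σ (D.pR x) = some j)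
    (hxl : σ (D.pL x) = none ∨ σ (D.pL x) = some j) :
    ∃ σ' : O → Option ι, D.Pre σ' ∧ D.Lok σ' ∧ D.pot σ' ≤ D.pot σ ∧
      (∀ y k, ¬ D.P k → σ' (D.pR y) = some k → ∃ k', ¬ D.P k' ∧ σ (D.pR y) = some k') ∧
      σ' (D.pR x) = none := by
  classical
  have hux : σ (D.unc x) = none := by
    by_contra h
    have := (hp.one x h).2
    rw [hx] at this
    exact Option.some_ne_none _ this
  obtain ⟨σ', hσ'⟩ : ∃ σ' : O → Option ι, σ' = fun o => if o = D.unc x then some j else
    if o = D.pL x ∨ o = D.pR x then none else σ o := ⟨_, rfl⟩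
  have su : σ' (D.unc x) = some j := by rw [hσ']; simp
  have sl : σ' (D.pL x) = none := by
    rw [hσ']
    beta_reduce
    rw [if_neg (fun h => hD.ul x x h.symm), if_pos (Or.inl rfl)]
  have sr : σ' (D.pR x) = none := by
    rw [hσ']
    beta_reduce
    rw [if_neg (fun h => hD.ur x x h.symm), if_pos (Or.inr rfl)]
  have so : ∀ o, o ≠ D.unc x → o ≠ D.pL x → o ≠ D.pR x → σ' o = σ o := by
    intro o h1 h2 h3
    rw [hσ']
    beta_reduce
    rw [if_neg h1, if_neg (by rintro (h | h); exacts [h2 h, h3 h])]
  have hkeep : ∀ i o, i ≠ j → (σ' o = some i ↔ σ o = some i) := by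
    intro i o hi
    by_cases h1 : o = D.unc x
    · subst h1
      rw [su, hux]
      constructor
      · intro h; exact absurd (Option.some.inj h).symm hi
      · intro h; exact absurd h.symm (Option.some_ne_none _)
    by_cases h2 : o = D.pL x
    · subst h2
      rw [sl]
      rcases hxl with h | h
      · rw [h]
      · rw [h]
        constructor
        · intro h; exact absurd h.symm (Option.some_ne_none _)
        · intro h; exact absurd (Option.some.inj h).symm hi
    by_cases h3 : o = D.pR x
    · subst h3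
      rw [sr, hx]
      constructor
      · intro h; exact absurd h.symm (Option.some_ne_none _)
      · intro h; exact absurd (Option.some.inj h).symm hi
    rw [so o h1 h2 h3]
  have hfull : ∀ g, g ≤ D.T → D.Busy σ' j g := fun g hg =>
    ⟨D.unc x, su, by rw [hD.unclo]; exact Nat.zero_le _, by rw [hD.unchi]; exact hg⟩
  have hb : ∀ i g, i ≠ j → (D.Busy σ' i g ↔ D.Busy σ i g) := by
    intro i g hi
    constructor
    · rintro ⟨o, h1, h2⟩
      exact ⟨o, (hkeep i o hi).1 h1, h2⟩
    · rintro ⟨o, h1, h2⟩
      exact ⟨o, (hkeep i o hi).2 h1, h2⟩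
  have hpj : ∀ i, D.P i → i ≠ j := fun i hi h => hj (h ▸ hi)
  refine ⟨σ', ⟨?_, ?_, ?_⟩, ?_, ?_, ?_, sr⟩
  · intro y hy
    by_cases hyx : y = x
    · subst hyx
      exact ⟨sl, sr⟩
    · have h1 : σ' (D.unc y) = σ (D.unc y) := so _ (fun h => hyx (hD.uu _ _ h)) (hD.ul y x) (hD.ur y x)
      rw [h1] at hy
      have h2 : σ' (D.pL y) = σ (D.pL y) := so _ (fun h => hD.ul x y h.symm) (fun h => hyx (hD.ll _ _ h))
        (hD.lr y x)
      have h3 : σ' (D.pR y) = σ (D.pR y) := so _ (fun h => hD.ur x y h.symm) (fun h => hD.lr x y h.symm)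
        (fun h => hyx (hD.rr _ _ h))
      rw [h2, h3]
      exact hp.one y hy
  · intro i
    by_cases hij : i = j
    · right
      exact ⟨x, by rw [su, hij]⟩
    · rcases hp.rt i with h | ⟨y, h⟩
      · left
        exact (hkeep i _ hij).2 h
      · right
        exact ⟨y, (hkeep i _ hij).2 h⟩
  · intro i i' hr g hg
    by_cases h2 : i' = j
    · right
      rw [h2]
      exact hfull g hg
    · rcases hp.cov i i' hr g hg with h | h
      · left
        exact (hb i g (hpj i (hD.relP _ _ hr))).2 h
      · right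
        exact (hb i' g h2).2 h
  · intro y i hy
    by_cases hij : i = j
    · rw [hij]; exact hj
    · exact hL y i ((hkeep i _ hij).1 hy)
  · unfold Line.pot
    rw [up_eq D σ σ' (fun i o hi => hkeep i o (hpj i hi))]
    refine Nat.add_le_add_left (Finset.card_le_card ?_) _
    intro z hz
    rw [mem_down] at hz ⊢
    obtain ⟨h1, h2, h3, h4⟩ := hz
    have h5 : z.1 ≠ j := by
      intro h
      apply h4
      rw [h]
      exact hfull _ (by omega)
    exact ⟨h1, h2, (hb _ _ h5).1 h3, fun h => h4 ((hb _ _ h5).2 h)⟩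
  · intro y k hk hy
    by_cases hkj : k = j
    · have h1 : D.pR y ≠ D.unc x := fun h => hD.ur x y h.symm
      have h2 : D.pR y ≠ D.pL x := fun h => hD.lr x y h.symm
      have h3 : D.pR y ≠ D.pR x := by
        intro h
        rw [h, sr] at hy
        exact Option.some_ne_none _ hy.symm
      rw [so _ h1 h2 h3] at hy
      exact ⟨k, hk, hy⟩
    · exact ⟨k, hk, (hkeep k _ hkj).1 hy⟩

theorem surgery_diff [Fintype ι] (D : Line O ι Z) (hD : D.Ok) (σ : O → Option ι) (hp : D.Pre σ) (hL : D.Lok σ)
    (x : Z) (j j₁ : ι) (hj : ¬ D.P j) (hx : σ (D.pR x) = some j)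
    (hxl : σ (D.pL x) = some j₁) (hne : j₁ ≠ j) (k k' : ι)
    (hkk : (k = j ∧ k' = j₁) ∨ (k = j₁ ∧ k' = j)) (hk : ∀ i, D.rel i k → D.rel i j ∧ D.rel i j₁) :
    ∃ σ' : O → Option ι, D.Pre σ' ∧ D.Lok σ' ∧ D.pot σ' ≤ D.pot σ ∧
      (∀ y k, ¬ D.P k → σ' (D.pR y) = some k → ∃ k', ¬ D.P k' ∧ σ (D.pR y) = some k') ∧
      σ' (D.pR x) = none := by
  classical
  have hj₁ : ¬ D.P j₁ := hL x j₁ hxl
  have hux : σ (D.unc x) = none := by
    by_contra h
    have := (hp.one x h).2
    rw [hx] at this
    exact Option.some_ne_none _ this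
  have hkk' : k ≠ k' := by
    rcases hkk with ⟨h1, h2⟩ | ⟨h1, h2⟩
    · rw [h1, h2]; exact hne.symm
    · rw [h1, h2]; exact hne
  have hkmem : k = j ∨ k = j₁ := by
    rcases hkk with ⟨h1, h2⟩ | ⟨h1, h2⟩
    · exact Or.inl h1
    · exact Or.inr h1
  have hk'mem : k' = j ∨ k' = j₁ := by
    rcases hkk with ⟨h1, h2⟩ | ⟨h1, h2⟩
    · exact Or.inr h2
    · exact Or.inl h2
  have hkR : ¬ D.P k := by
    rcases hkmem with h | h
    · rw [h]; exact hj
    · rw [h]; exact hj₁
  have hk'R : ¬ D.P k' := by
    rcases hk'mem with h | h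
    · rw [h]; exact hj
    · rw [h]; exact hj₁
  have hcase : ∀ i, i ≠ j → i ≠ j₁ → i ≠ k ∧ i ≠ k' := by
    intro i h1 h2
    constructor
    · rcases hkmem with h | h
      · rw [h]; exact h1
      · rw [h]; exact h2
    · rcases hk'mem with h | h
      · rw [h]; exact h1
      · rw [h]; exact h2
  have hcase' : ∀ i, i = j ∨ i = j₁ → i = k ∨ i = k' := by
    intro i hi
    rcases hkk with ⟨h1, h2⟩ | ⟨h1, h2⟩
    · rcases hi with h | h
      · left; rw [h, h1]
      · right; rw [h, h2]
    · rcases hi with h | h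
      · right; rw [h, h2]
      · left; rw [h, h1]
  obtain ⟨m, hm⟩ : ∃ m, m = D.m x := ⟨_, rfl⟩
  have hm1 : 1 ≤ m := by rw [hm]; exact hD.m1 x
  have hmT : m ≤ D.T := by rw [hm]; exact hD.mT x
  obtain ⟨σ', hσ'⟩ : ∃ σ' : O → Option ι, σ' = fun o => if o = D.unc x then some k' else
    if o = D.pL x ∨ o = D.pR x then none else
    if σ o = some j then (if D.lo o < m ∨ (k = j ∧ o = D.root j) then some k else none) else
    if σ o = some j₁ then (if m ≤ D.hi o then some k else none) else σ o := ⟨_, rfl⟩
  have su : σ' (D.unc x) = some k' := by rw [hσ']; simp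
  have sl : σ' (D.pL x) = none := by
    rw [hσ']
    beta_reduce
    rw [if_neg (fun h => hD.ul x x h.symm), if_pos (Or.inl rfl)]
  have sr : σ' (D.pR x) = none := by
    rw [hσ']
    beta_reduce
    rw [if_neg (fun h => hD.ur x x h.symm), if_pos (Or.inr rfl)]
  have so : ∀ o, o ≠ D.unc x → o ≠ D.pL x → o ≠ D.pR x → σ' o =
      if σ o = some j then (if D.lo o < m ∨ (k = j ∧ o = D.root j) then some k else none) else
      if σ o = some j₁ then (if m ≤ D.hi o then some k else none) else σ o := by
    intro o h1 h2 h3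
    rw [hσ']
    beta_reduce
    rw [if_neg h1, if_neg (by rintro (h | h); exacts [h2 h, h3 h])]
  -- the other labels do not change
  have hkeep : ∀ i o, i ≠ j → i ≠ j₁ → (σ' o = some i ↔ σ o = some i) := by
    intro i o hi hi₁
    obtain ⟨hik, hik'⟩ := hcase i hi hi₁
    by_cases h1 : o = D.unc x
    · subst h1
      rw [su, hux]
      constructor
      · intro h; exact absurd (Option.some.inj h).symm hik'
      · intro h; exact absurd h.symm (Option.some_ne_none _)
    by_cases h2 : o = D.pL x
    · subst h2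
      rw [sl, hxl]
      constructor
      · intro h; exact absurd h.symm (Option.some_ne_none _)
      · intro h; exact absurd (Option.some.inj h).symm hi₁
    by_cases h3 : o = D.pR x
    · subst h3
      rw [sr, hx]
      constructor
      · intro h; exact absurd h.symm (Option.some_ne_none _)
      · intro h; exact absurd (Option.some.inj h).symm hi
    rw [so o h1 h2 h3]
    by_cases h4 : σ o = some j
    · rw [if_pos h4, h4]
      constructor
      · intro h
        split_ifs at h
        exact absurd (Option.some.inj h).symm hik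
      · intro h; exact absurd (Option.some.inj h).symm hi
    rw [if_neg h4]
    by_cases h5 : σ o = some j₁
    · rw [if_pos h5, h5]
      constructor
      · intro h
        split_ifs at h
        exact absurd (Option.some.inj h).symm hik
      · intro h; exact absurd (Option.some.inj h).symm hi₁
    rw [if_neg h5]
  -- what is in `k` now
  have hkin : ∀ o, σ' o = some k → o ≠ D.pL x ∧ o ≠ D.pR x ∧
      ((σ o = some j ∧ (D.lo o < m ∨ D.hi o = D.T)) ∨ (σ o = some j₁ ∧ m ≤ D.hi o)) := by
    intro o ho
    have h1 : o ≠ D.unc x := by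
      intro h
      rw [h, su] at ho
      exact hkk' (Option.some.inj ho).symm
    have h2 : o ≠ D.pL x := by
      intro h
      rw [h, sl] at ho
      exact Option.some_ne_none _ ho.symm
    have h3 : o ≠ D.pR x := by
      intro h
      rw [h, sr] at ho
      exact Option.some_ne_none _ ho.symm
    refine ⟨h2, h3, ?_⟩
    rw [so o h1 h2 h3] at ho
    by_cases h4 : σ o = some j
    · left
      refine ⟨h4, ?_⟩
      rw [if_pos h4] at ho
      by_cases h5 : D.lo o < m ∨ (k = j ∧ o = D.root j)
      · rcases h5 with h5 | ⟨-, h5⟩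
        · exact Or.inl h5
        · right
          rw [h5]
          exact hD.rootR j hj
      · rw [if_neg h5] at ho
        exact absurd ho.symm (Option.some_ne_none _)
    · right
      rw [if_neg h4] at ho
      by_cases h5 : σ o = some j₁
      · rw [if_pos h5] at ho
        by_cases h6 : m ≤ D.hi o
        · exact ⟨h5, h6⟩
        · rw [if_neg h6] at ho
          exact absurd ho.symm (Option.some_ne_none _)
      · rw [if_neg h5] at ho
        exfalso
        rcases hkmem with h | h
        · rw [h] at ho; exact h4 ho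
        · rw [h] at ho; exact h5 ho
  have hin1 : ∀ o, σ o = some j → o ≠ D.pR x → D.lo o < m → σ' o = some k := by
    intro o h1 h2 h3
    have h4 : o ≠ D.unc x := by
      intro h
      rw [h, hux] at h1
      exact Option.some_ne_none _ h1.symm
    have h5 : o ≠ D.pL x := by
      intro h
      rw [h, hxl] at h1
      exact hne (Option.some.inj h1)
    rw [so o h4 h5 h2, if_pos h1, if_pos (Or.inl h3)]
  have hin2 : ∀ o, σ o = some j₁ → o ≠ D.pL x → m ≤ D.hi o → σ' o = some k := by
    intro o h1 h2 h3
    have h4 : o ≠ D.unc x := by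
      intro h
      rw [h, hux] at h1
      exact Option.some_ne_none _ h1.symm
    have h5 : o ≠ D.pR x := by
      intro h
      rw [h, hx] at h1
      exact hne (Option.some.inj h1).symm
    have h6 : σ o ≠ some j := by
      rw [h1]
      intro h
      exact hne (Option.some.inj h)
    rw [so o h4 h2 h5, if_neg h6, if_pos h1, if_pos h3]
  have hb1 : ∀ g, g < m → D.Busy σ j g → D.Busy σ' k g := by
    rintro g hg ⟨o, h1, h2, h3⟩
    refine ⟨o, hin1 o h1 ?_ (by omega), h2, h3⟩
    intro h
    rw [h, hD.pRlo, ← hm] at h2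
    omega
  have hb2 : ∀ g, m ≤ g → D.Busy σ j₁ g → D.Busy σ' k g := by
    rintro g hg ⟨o, h1, h2, h3⟩
    refine ⟨o, hin2 o h1 ?_ (by omega), h2, h3⟩
    intro h
    have h4 := hD.pLhi x
    rw [h] at h3
    omega
  have hfull : ∀ g, g ≤ D.T → D.Busy σ' k' g := fun g hg =>
    ⟨D.unc x, su, by rw [hD.unclo]; exact Nat.zero_le _, by rw [hD.unchi]; exact hg⟩
  have hb : ∀ i g, i ≠ j → i ≠ j₁ → (D.Busy σ' i g ↔ D.Busy σ i g) := by
    intro i g hi hi₁
    constructor
    · rintro ⟨o, h1, h2⟩
      exact ⟨o, (hkeep i o hi hi₁).1 h1, h2⟩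
    · rintro ⟨o, h1, h2⟩
      exact ⟨o, (hkeep i o hi hi₁).2 h1, h2⟩
  have hpj : ∀ i, D.P i → i ≠ j := fun i hi h => hj (h ▸ hi)
  have hpj₁ : ∀ i, D.P i → i ≠ j₁ := fun i hi h => hj₁ (h ▸ hi)
  have hfrom : ∀ o i, o ≠ D.unc x → σ' o = some i → σ o = some i ∨ σ o = some j ∨ σ o = some j₁ := by
    intro o i h1 ho
    by_cases h2 : i = j ∨ i = j₁
    · rcases hcase' i h2 with h | h
      · rw [h] at ho
        rcases (hkin o ho).2.2 with h3 | h3
        · exact Or.inr (Or.inl h3.1)
        · exact Or.inr (Or.inr h3.1)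
      · exfalso
        have h3 : o ≠ D.pL x := by
          intro h
          rw [h, sl] at ho
          exact Option.some_ne_none _ ho.symm
        have h4 : o ≠ D.pR x := by
          intro h
          rw [h, sr] at ho
          exact Option.some_ne_none _ ho.symm
        rw [so o h1 h3 h4] at ho
        by_cases h5 : σ o = some j
        · rw [if_pos h5] at ho
          split_ifs at ho
          exact hkk' ((Option.some.inj ho).trans h)
        · rw [if_neg h5] at ho
          by_cases h6 : σ o = some j₁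
          · rw [if_pos h6] at ho
            split_ifs at ho
            exact hkk' ((Option.some.inj ho).trans h)
          · rw [if_neg h6] at ho
            rcases h2 with h2 | h2
            · rw [h2] at ho; exact h5 ho
            · rw [h2] at ho; exact h6 ho
    · push Not at h2
      exact Or.inl ((hkeep i o h2.1 h2.2).1 ho)
  have hnone : ∀ o, o ≠ D.unc x → σ o = none → σ' o = none := by
    intro o h1 h2
    by_contra h3
    obtain ⟨i, hi⟩ := Option.ne_none_iff_exists'.1 h3
    rcases hfrom o i h1 hi with h | h | h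
    · rw [h2] at h; exact Option.some_ne_none _ h.symm
    · rw [h2] at h; exact Option.some_ne_none _ h.symm
    · rw [h2] at h; exact Option.some_ne_none _ h.symm
  refine ⟨σ', ⟨?_, ?_, ?_⟩, ?_, ?_, ?_, sr⟩
  · -- one
    intro y hy
    by_cases hyx : y = x
    · subst hyx
      exact ⟨sl, sr⟩
    · have h1 : D.unc y ≠ D.unc x := fun h => hyx (hD.uu _ _ h)
      have h2 : σ (D.unc y) ≠ none := fun h => hy (hnone _ h1 h)
      have h3 := hp.one y h2
      exact ⟨hnone _ (fun h => hD.ul x y h.symm) h3.1, hnone _ (fun h => hD.ur x y h.symm) h3.2⟩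
  · -- rt
    intro i
    by_cases hi : i = j ∨ i = j₁
    · rcases hcase' i hi with h | h
      · rw [h]
        by_cases h1 : ∃ y, σ (D.unc y) = some j ∨ σ (D.unc y) = some j₁
        · obtain ⟨y, hy⟩ := h1
          right
          refine ⟨y, ?_⟩
          rcases hy with hy | hy
          · exact hin1 _ hy (hD.ur y x) (by rw [hD.unclo]; omega)
          · exact hin2 _ hy (hD.ul y x) (by rw [hD.unchi]; exact hmT)
        · left
          push Not at h1
          have h2 : σ (D.root j) = some j := by
            rcases hp.rt j with h3 | ⟨y, h3⟩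
            · exact h3
            · exact absurd h3 (h1 y).1
          have h3 : σ (D.root j₁) = some j₁ := by
            rcases hp.rt j₁ with h3 | ⟨y, h3⟩
            · exact h3
            · exact absurd h3 (h1 y).2
          rcases hkmem with h4 | h4
          · have h5 := so (D.root j) (hD.ru j x) (hD.rl j x) (hD.rr' j x)
            rw [if_pos h2, if_pos (Or.inr ⟨h4, rfl⟩)] at h5
            have h6 : D.root k = D.root j := by rw [h4]
            rw [h6]
            exact h5
          · have h6 : D.root k = D.root j₁ := by rw [h4]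
            rw [h6]
            exact hin2 _ h3 (hD.rl j₁ x) (by rw [hD.rootR j₁ hj₁]; exact hmT)
      · right
        exact ⟨x, by rw [su, h]⟩
    · push Not at hi
      rcases hp.rt i with h | ⟨y, h⟩
      · left
        exact (hkeep i _ hi.1 hi.2).2 h
      · right
        exact ⟨y, (hkeep i _ hi.1 hi.2).2 h⟩
  · -- cov
    intro i i' hr g hg
    have hiP := hD.relP _ _ hr
    by_cases h2 : i' = j ∨ i' = j₁
    · rcases hcase' i' h2 with h | h
      · rw [h] at hr ⊢
        obtain ⟨h3, h4⟩ := hk i hr
        by_cases h5 : g < m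
        · rcases hp.cov i j h3 g hg with h6 | h6
          · exact Or.inl ((hb i g (hpj i hiP) (hpj₁ i hiP)).2 h6)
          · exact Or.inr (hb1 g h5 h6)
        · rcases hp.cov i j₁ h4 g hg with h6 | h6
          · exact Or.inl ((hb i g (hpj i hiP) (hpj₁ i hiP)).2 h6)
          · exact Or.inr (hb2 g (not_lt.1 h5) h6)
      · right
        rw [h]
        exact hfull g hg
    · push Not at h2
      rcases hp.cov i i' hr g hg with h | h
      · left
        exact (hb i g (hpj i hiP) (hpj₁ i hiP)).2 h
      · right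
        exact (hb i' g h2.1 h2.2).2 h
  · -- Lok
    intro y i hy
    rcases hfrom _ i (fun h => hD.ul x y h.symm) hy with h | h | h
    · exact hL y i h
    · intro hPi
      have h1 := (hkeep i _ (hpj i hPi) (hpj₁ i hPi)).1 hy
      rw [h] at h1
      exact hpj i hPi (Option.some.inj h1).symm
    · intro hPi
      have h1 := (hkeep i _ (hpj i hPi) (hpj₁ i hPi)).1 hy
      rw [h] at h1
      exact hpj₁ i hPi (Option.some.inj h1).symm
  · -- pot
    unfold Line.pot
    rw [up_eq D σ σ' (fun i o hi => hkeep i o (hpj i hi) (hpj₁ i hi))]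
    refine Nat.add_le_add_left ?_ _
    obtain ⟨φ, hφ⟩ : ∃ φ : ι × ℕ → ι × ℕ, φ = fun z => if z.1 = k then
      (if z.2 + 1 < m then (j, z.2) else (j₁, Nat.findGreatest (fun y => D.Busy σ j₁ y) z.2)) else z :=
      ⟨_, rfl⟩
    have φ1 : ∀ g, g + 1 < m → φ (k, g) = (j, g) := by
      intro g hg
      rw [hφ]
      beta_reduce
      rw [if_pos rfl, if_pos hg]
    have φ2 : ∀ g, ¬ g + 1 < m → φ (k, g) = (j₁, Nat.findGreatest (fun y => D.Busy σ j₁ y) g) := by
      intro g hg
      rw [hφ]
      beta_reduce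
      rw [if_pos rfl, if_neg hg]
    have φ3 : ∀ z : ι × ℕ, z.1 ≠ k → φ z = z := by
      intro z hz
      rw [hφ]
      beta_reduce
      rw [if_neg hz]
    have hjm : D.Busy σ j₁ (m - 1) := by
      refine ⟨D.pL x, hxl, by rw [hD.pLlo]; exact Nat.zero_le _, ?_⟩
      have := hD.pLhi x
      omega
    have hfg : ∀ g, ¬ g + 1 < m → D.Busy σ j₁ (Nat.findGreatest (fun y => D.Busy σ j₁ y) g) := by
      intro g hg
      exact Nat.findGreatest_spec (P := fun y => D.Busy σ j₁ y) (m := m - 1) (by omega) hjm
    have hother : ∀ z ∈ D.down σ', z.1 ≠ k → z.1 ≠ j ∧ z.1 ≠ j₁ := by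
      intro z hz hzk
      rw [mem_down] at hz
      have h1 : z.1 ≠ k' := by
        intro h
        apply hz.2.2.2
        rw [h]
        exact hfull _ (by omega)
      constructor
      · intro h
        rcases hcase' z.1 (Or.inl h) with h2 | h2
        · exact hzk h2
        · exact h1 h2
      · intro h
        rcases hcase' z.1 (Or.inr h) with h2 | h2
        · exact hzk h2
        · exact h1 h2
    refine Finset.card_le_card_of_injOn φ ?_ ?_
    · intro z hz
      have hz' := Finset.mem_coe.1 hz
      rw [Finset.mem_coe]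
      by_cases hzk : z.1 = k
      · obtain ⟨i, g⟩ := z
        simp only at hzk
        subst hzk
        obtain ⟨h1, h2, h3, h4⟩ := (mem_down D σ' _).1 hz'
        simp only at h1 h2 h3 h4
        obtain ⟨o, ho, ho1, ho2⟩ := h3
        obtain ⟨-, -, h5⟩ := hkin o ho
        by_cases h6 : g + 1 < m
        · rw [φ1 g h6, mem_down]
          refine ⟨h1, hj, ?_, fun h => h4 (hb1 _ h6 h)⟩
          rcases h5 with ⟨h5, -⟩ | ⟨h5, h7⟩
          · exact ⟨o, h5, ho1, ho2⟩
          · exfalso
            apply h4
            refine ⟨o, ho, ?_, ?_⟩ <;> omega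
        · rw [φ2 g h6, mem_down]
          have h7 : Nat.findGreatest (fun y => D.Busy σ j₁ y) g ≤ g := Nat.findGreatest_le g
          refine ⟨?_, hj₁, hfg g h6, ?_⟩
          · simp only
            omega
          · simp only
            intro h8
            by_cases h9 : Nat.findGreatest (fun y => D.Busy σ j₁ y) g = g
            · rw [h9] at h8
              exact h4 (hb2 _ (by omega) h8)
            · have h10 := Nat.findGreatest_is_greatest (P := fun y => D.Busy σ j₁ y) (n := g)
                (k := Nat.findGreatest (fun y => D.Busy σ j₁ y) g + 1) (Nat.lt_succ_self _) (by omega)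
              exact h10 h8
      · rw [φ3 z hzk]
        obtain ⟨h5, h6⟩ := hother z hz' hzk
        obtain ⟨h1, h2, h3, h4⟩ := (mem_down D σ' _).1 hz'
        rw [mem_down]
        exact ⟨h1, h2, (hb _ _ h5 h6).1 h3, fun h => h4 ((hb _ _ h5 h6).2 h)⟩
    · -- injectivity
      have key : ∀ g₁ g₂, g₁ < g₂ → (k, g₁) ∈ D.down σ' → (k, g₂) ∈ D.down σ' → ¬ g₁ + 1 < m →
          Nat.findGreatest (fun y => D.Busy σ j₁ y) g₁ = Nat.findGreatest (fun y => D.Busy σ j₁ y) g₂ →
          False := by
        intro g₁ g₂ h12 hg1 hg2 hm1' he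
        obtain ⟨a1, -, a3, a4⟩ := (mem_down D σ' _).1 hg1
        obtain ⟨b1, -, b3, b4⟩ := (mem_down D σ' _).1 hg2
        simp only at a1 a3 a4 b1 b3 b4
        obtain ⟨o, ho, ho1, ho2⟩ := b3
        obtain ⟨-, -, h5⟩ := hkin o ho
        rcases h5 with ⟨h5, h6 | h6⟩ | ⟨h5, h6⟩
        · exact a4 ⟨o, ho, by omega, by omega⟩
        · exact b4 ⟨o, ho, by omega, by omega⟩
        · have h7 : Nat.findGreatest (fun y => D.Busy σ j₁ y) g₁ ≤ g₁ := Nat.findGreatest_le g₁
          have h8 := Nat.findGreatest_is_greatest (P := fun y => D.Busy σ j₁ y) (n := g₂)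
            (k := g₂) (by rw [← he]; omega) le_rfl
          exact h8 ⟨o, h5, ho1, ho2⟩
      intro z hz w hw hzw
      have hz' := Finset.mem_coe.1 hz
      have hw' := Finset.mem_coe.1 hw
      by_cases hzk : z.1 = k
      · by_cases hwk : w.1 = k
        · obtain ⟨i, g⟩ := z
          obtain ⟨i', g'⟩ := w
          simp only at hzk hwk
          subst hzk
          subst hwk
          by_cases h1 : g + 1 < m
          · by_cases h2 : g' + 1 < m
            · rw [φ1 g h1, φ1 g' h2] at hzw
              rw [Prod.mk.injEq] at hzw ⊢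
              exact ⟨rfl, hzw.2⟩
            · rw [φ1 g h1, φ2 g' h2, Prod.mk.injEq] at hzw
              exact absurd hzw.1.symm hne
          · by_cases h2 : g' + 1 < m
            · rw [φ2 g h1, φ1 g' h2, Prod.mk.injEq] at hzw
              exact absurd hzw.1 hne
            · rw [φ2 g h1, φ2 g' h2, Prod.mk.injEq] at hzw
              rcases lt_trichotomy g g' with h3 | h3 | h3
              · exact (key g g' h3 hz' hw' h1 hzw.2).elim
              · rw [h3]
              · exact (key g' g h3 hw' hz' h2 hzw.2.symm).elim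
        · exfalso
          obtain ⟨h5, h6⟩ := hother w hw' hwk
          rw [φ3 w hwk] at hzw
          obtain ⟨i, g⟩ := z
          simp only at hzk
          subst hzk
          by_cases h1 : g + 1 < m
          · rw [φ1 g h1] at hzw
            exact h5 (by rw [← hzw])
          · rw [φ2 g h1] at hzw
            exact h6 (by rw [← hzw])
      · obtain ⟨h5, h6⟩ := hother z hz' hzk
        by_cases hwk : w.1 = k
        · exfalso
          rw [φ3 z hzk] at hzw
          obtain ⟨i, g⟩ := w
          simp only at hwk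
          subst hwk
          by_cases h1 : g + 1 < m
          · rw [φ1 g h1] at hzw
            exact h5 (by rw [hzw])
          · rw [φ2 g h1] at hzw
            exact h6 (by rw [hzw])
        · rw [φ3 z hzk, φ3 w hwk] at hzw
          exact hzw
  · -- bad dummies
    intro y i hi hy
    rcases hfrom _ i (fun h => hD.ur x y h.symm) hy with h | h | h
    · exact ⟨i, hi, h⟩
    · exact ⟨j, hj, h⟩
    · exact ⟨j₁, hj₁, h⟩

theorem surgery [Fintype ι] (D : Line O ι Z) (hD : D.Ok) (σ : O → Option ι) (hp : D.Pre σ) (hL : D.Lok σ)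
    (x : Z) (j : ι) (hj : ¬ D.P j) (hx : σ (D.pR x) = some j) :
    ∃ σ' : O → Option ι, D.Pre σ' ∧ D.Lok σ' ∧ D.pot σ' ≤ D.pot σ ∧
      (∀ y k, ¬ D.P k → σ' (D.pR y) = some k → ∃ k', ¬ D.P k' ∧ σ (D.pR y) = some k') ∧
      σ' (D.pR x) = none := by
  by_cases h1 : σ (D.pL x) = none ∨ σ (D.pL x) = some j
  · exact surgery_same D hD σ hp hL x j hj hx h1
  · push Not at h1
    obtain ⟨j₁, hj₁⟩ := Option.ne_none_iff_exists'.1 h1.1
    have hne : j₁ ≠ j := by
      intro h
      rw [h] at hj₁
      exact h1.2 hj₁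
    rcases hD.nestR j j₁ with h | h
    · exact surgery_diff D hD σ hp hL x j j₁ hj hx hj₁ hne j j₁ (Or.inl ⟨rfl, rfl⟩) (fun i hi => ⟨hi, h i hi⟩)
    · exact surgery_diff D hD σ hp hL x j j₁ hj hx hj₁ hne j₁ j (Or.inr ⟨rfl, rfl⟩) (fun i hi => ⟨h i hi, hi⟩)

end Pool.Agent.Lib.MP_534936_co.HW
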