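import Pool.Agent.Lib.MP_534936_co.HW.D4

/-!
# All right parts into `P` labels: repeated surgery

Induction on the number of dummies `y` with `σ (pR y) = some k`, `k` an `R` label.
-/

set_option autoImplicit false

namespace Pool.Agent.Lib.MP_534936_co.HW

variable {O ι Z : Type}

open scoped Classical in
private noncomputable def bad [Fintype Z] (D : Line O ι Z) (σ : O → Option ι) : Finset Z :=
  (Finset.univ : Finset Z).filter fun x => ∃ k, ¬ D.P k ∧ σ (D.pR x) = some k

private theorem mem_bad [Fintype Z] {D : Line O ι Z} {σ : O → Option ι} {x : Z} :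
    x ∈ bad D σ ↔ ∃ k, ¬ D.P k ∧ σ (D.pR x) = some k := by simp [bad]

private theorem normalise_aux [Fintype ι] [Fintype Z] (D : Line O ι Z) (hD : D.Ok) :
    ∀ n : ℕ, ∀ σ : O → Option ι, (bad D σ).card ≤ n → D.Pre σ → D.Lok σ →
      ∃ σ' : O → Option ι, D.Pre σ' ∧ D.Lok σ' ∧ D.Rok σ' ∧ D.pot σ' ≤ D.pot σ := by
  intro n
  induction n with
  | zero =>
    intro σ hn hp hL
    refine ⟨σ, hp, hL, ?_, le_rfl⟩
    intro x i hx
    by_contra hi
    have hmem : x ∈ bad D σ := mem_bad.2 ⟨i, hi, hx⟩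
    have h0 : bad D σ = ∅ := Finset.card_eq_zero.1 (Nat.le_zero.1 hn)
    rw [h0] at hmem
    exact absurd hmem (Finset.notMem_empty x)
  | succ n ih =>
    intro σ hn hp hL
    by_cases hne : (bad D σ).Nonempty
    · obtain ⟨x, hx⟩ := hne
      obtain ⟨j, hj, hxj⟩ := mem_bad.1 hx
      obtain ⟨σ', hp', hL', hpot, hR, hnone⟩ := surgery D hD σ hp hL x j hj hxj
      have hsub : bad D σ' ⊂ bad D σ := by
        refine (Finset.ssubset_iff_of_subset ?_).2 ⟨x, hx, ?_⟩
        · intro y hy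
          obtain ⟨k, hk, hyk⟩ := mem_bad.1 hy
          obtain ⟨k', hk', hyk'⟩ := hR y k hk hyk
          exact mem_bad.2 ⟨k', hk', hyk'⟩
        · intro hx'
          obtain ⟨k, _, hk⟩ := mem_bad.1 hx'
          rw [hnone] at hk
          exact absurd hk (by simp)
      have hlt := Finset.card_lt_card hsub
      obtain ⟨τ, h1, h2, h3, h4⟩ := ih σ' (by omega) hp' hL'
      exact ⟨τ, h1, h2, h3, h4.trans hpot⟩
    · refine ih σ ?_ hp hL
      rw [Finset.not_nonempty_iff_eq_empty.1 hne]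
      simp

theorem normalise [Fintype ι] [Fintype Z] (D : Line O ι Z) (hD : D.Ok) (σ : O → Option ι) (hp : D.Pre σ)
    (hL : D.Lok σ) :
    ∃ σ' : O → Option ι, D.Pre σ' ∧ D.Lok σ' ∧ D.Rok σ' ∧ D.pot σ' ≤ D.pot σ :=
  normalise_aux D hD _ σ le_rfl hp hL

end Pool.Agent.Lib.MP_534936_co.HW
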