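import Pool.Agent.Lib.MP_534936_co.HW.D1
import Pool.Agent.Lib.MP_534936_co.HW.D2
import Pool.Agent.Lib.MP_534936_co.HW.D3
import Pool.Agent.Lib.MP_534936_co.HW.D5

/-!
# The minimal system has only root components

Proof. Take `σ` with `Pre`, `Lok`, `Rok` and minimal `pot`. If `up σ ≠ ∅` then `|N(up σ)| ≥ |up σ| + 1` by `hall_choice`
and `pmove` (then `normalise`), so `|down σ| ≥ |up σ| + 1`. The mirror image: if `down σ ≠ ∅` then
`|up σ| ≥ |down σ| + 1`.
-/

set_option autoImplicit false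

namespace Pool.Agent.Lib.MP_534936_co.HW

variable {O ι Z : Type}

/-- one side -/
theorem one_side [Fintype ι] [Fintype Z] (D : Line O ι Z) (hD : D.Ok) (σ : O → Option ι) (hp : D.Pre σ)
    (hL : D.Lok σ) (hmin : ∀ σ' : O → Option ι, D.Pre σ' → D.Lok σ' → D.Rok σ' → D.pot σ ≤ D.pot σ')
    (hne : (D.up σ).Nonempty) : (D.up σ).card < (D.down σ).card := by
  classical
  by_contra hcon
  have hle : (D.down σ).card ≤ (D.up σ).card := not_lt.1 hcon
  obtain ⟨A', hA', hne', f, hf, hinj⟩ := hall_choice (D.up σ) (D.down σ) (fun w z => D.Con σ w z) hne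
    (le_trans (Finset.card_le_card (Finset.filter_subset _ _)) hle)
  obtain ⟨σ', hp', hL', hlt⟩ := pmove D hD σ hp hL A' hA' hne' f hf hinj
  obtain ⟨σ'', hp'', hL'', hR'', hle''⟩ := normalise D hD σ' hp' hL'
  have := hmin σ'' hp'' hL'' hR''
  omega

theorem pot_mirror [Fintype ι] (D : Line O ι Z) (hD : D.Ok) (σ : O → Option ι) :
    D.mirror.pot σ = D.pot σ := by
  unfold Line.pot
  rw [card_up_mirror D hD σ, card_down_mirror D hD σ, Nat.add_comm]

theorem exists_flat [Fintype ι] [Fintype Z] (D : Line O ι Z) (hD : D.Ok) (σ : O → Option ι) (hp : D.Pre σ)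
    (hL : D.Lok σ) (hR : D.Rok σ) :
    ∃ σ' : O → Option ι, D.Pre σ' ∧ D.Lok σ' ∧ D.Rok σ' ∧ D.up σ' = ∅ ∧ D.down σ' = ∅ := by
  classical
  have hex : ∃ n : ℕ, ∃ τ : O → Option ι, D.Pre τ ∧ D.Lok τ ∧ D.Rok τ ∧ D.pot τ = n :=
    ⟨D.pot σ, σ, hp, hL, hR, rfl⟩
  obtain ⟨τ, hpτ, hLτ, hRτ, hpot⟩ := Nat.find_spec hex
  have hmin : ∀ σ' : O → Option ι, D.Pre σ' → D.Lok σ' → D.Rok σ' → D.pot τ ≤ D.pot σ' := by
    intro σ' h1 h2 h3
    rw [hpot]
    exact Nat.find_min' hex ⟨σ', h1, h2, h3, rfl⟩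
  have hDm := mirror_ok D hD
  have hup : (D.up τ).Nonempty → (D.up τ).card < (D.down τ).card :=
    one_side D hD τ hpτ hLτ hmin
  have hdown : (D.down τ).Nonempty → (D.down τ).card < (D.up τ).card := by
    intro hne
    have hne' : (D.mirror.up τ).Nonempty := by
      rw [← Finset.card_pos, card_up_mirror D hD τ]
      exact Finset.card_pos.2 hne
    have h := one_side D.mirror hDm τ ((pre_mirror D hD τ).2 hpτ) ((lok_mirror D τ).2 hRτ)
      (fun σ' h1 h2 h3 => by
        rw [pot_mirror D hD, pot_mirror D hD]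
        exact hmin σ' ((pre_mirror D hD σ').1 h1) ((rok_mirror D σ').1 h3) ((lok_mirror D σ').1 h2))
      hne'
    rw [card_up_mirror D hD τ, card_down_mirror D hD τ] at h
    exact h
  refine ⟨τ, hpτ, hLτ, hRτ, ?_, ?_⟩
  · by_contra h
    have h1 := hup (Finset.nonempty_iff_ne_empty.2 h)
    have h2 := hdown (Finset.card_pos.1 (by omega))
    omega
  · by_contra h
    have h2 := hdown (Finset.nonempty_iff_ne_empty.2 h)
    have h1 := hup (Finset.card_pos.1 (by omega))
    omega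

end Pool.Agent.Lib.MP_534936_co.HW
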