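import Pool.Agent.Lib.MP_534936_co.HW.Base

/-!
# Extraction of the real sets

Proof. `σ` flat: the busy set of a `P` label is `[0, b)`, of an `R` label `[a, T]`.
`U` = labels with an uncut dummy. For a `P` label `i ∉ U` with some `σ (pR x) = some i` let `xi i` be such an `x` with
the smallest `m x`; for an `R` label `j ∉ U` with some `σ (pL x) = some j` let `xj j` be such an `x` with the largest
`m x`. `K` = the labels `i ∉ U` without any part (clean), and the `R` labels `j ∉ U` with `x = xj j` such that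
`σ (pR x) = some i` with `i ∉ U` and `x = xi i` (merged). The other labels are mapped injectively to dummies
(`i ∈ U ↦` an `x` with `σ (unc x) = some i`; `P` label `i ↦ xi i`; `R` label `j ↦ xj j`), so `|K| + |Z| ≥ |ι|`.
Sets: clean `i`: `{o | σ o = some i}`. Merged `j` (with `x`, `i`): `{o | σ o = some i ∧ lo o < m x} ∪
{o | σ o = some j ∧ m x ≤ hi o}`; it is busy at all gaps `0, …, T` and contains `root i` and `root j`.
-/

set_option autoImplicit false

namespace Pool.Agent.Lib.MP_534936_co.HW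

variable {O ι Z : Type}

/-- in a flat assignment the busy set of a `P` label is an initial segment -/
theorem ext7_down [Fintype ι] (D : Line O ι Z) (σ : O → Option ι) (hu : D.up σ = ∅) (i : ι) (hi : D.P i)
    (n : ℕ) : ∀ g, g + n ≤ D.T → D.Busy σ i (g + n) → D.Busy σ i g := by
  induction n with
  | zero => intro g _ h; exact h
  | succ n ih =>
    intro g hg h
    have h2 : D.Busy σ i (g + n) := by
      by_contra hc
      have h3 : (i, g + n) ∈ D.up σ := by
        classical
        unfold Line.up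
        simp only [Finset.mem_filter, Finset.mem_product, Finset.mem_univ, Finset.mem_range, true_and]
        exact ⟨by omega, hi, hc, h⟩
      rw [hu] at h3
      exact absurd h3 (Finset.notMem_empty _)
    exact ih g (by omega) h2

/-- in a flat assignment the busy set of an `R` label is a final segment -/
theorem ext7_up [Fintype ι] (D : Line O ι Z) (σ : O → Option ι) (hd : D.down σ = ∅) (j : ι) (hj : ¬ D.P j)
    (n : ℕ) : ∀ g, g + n ≤ D.T → D.Busy σ j g → D.Busy σ j (g + n) := by
  induction n with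
  | zero => intro g _ h; exact h
  | succ n ih =>
    intro g hg h
    have h2 : D.Busy σ j (g + n) := ih g (by omega) h
    by_contra hc
    have h3 : (j, g + n) ∈ D.down σ := by
      classical
      unfold Line.down
      simp only [Finset.mem_filter, Finset.mem_product, Finset.mem_univ, Finset.mem_range, true_and]
      exact ⟨by omega, hj, h2, hc⟩
    rw [hd] at h3
    exact absurd h3 (Finset.notMem_empty _)

/-- choice of one extremal part for each label -/
theorem ext7_sel [Fintype Z] (p : Z → O) (σ : O → Option ι) (w : Z → ℤ) :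
    ∃ S : ι → Z → Prop, (∀ i x, S i x → σ (p x) = some i) ∧
      (∀ i x, S i x → ∀ y, σ (p y) = some i → w x ≤ w y) ∧
      (∀ i x y, S i x → S i y → x = y) ∧ (∀ i x, σ (p x) = some i → ∃ y, S i y) := by
  classical
  have h : ∀ i, (∃ x, σ (p x) = some i) → ∃ x, σ (p x) = some i ∧ ∀ y, σ (p y) = some i → w x ≤ w y := by
    rintro i ⟨x0, hx0⟩
    obtain ⟨x, hx, hm⟩ := Finset.exists_min_image (Finset.univ.filter (fun x => σ (p x) = some i)) w
      ⟨x0, by simp [hx0]⟩
    simp only [Finset.mem_filter, Finset.mem_univ, true_and] at hx hm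
    exact ⟨x, hx, hm⟩
  choose xi hxi using h
  refine ⟨fun i x => ∃ h, x = xi i h, ?_, ?_, ?_, ?_⟩
  · rintro i x ⟨h, rfl⟩
    exact (hxi i h).1
  · rintro i x ⟨h, rfl⟩
    exact (hxi i h).2
  · rintro i x y ⟨h, rfl⟩ ⟨h', rfl⟩
    rfl
  · intro i x hx
    exact ⟨xi i ⟨x, hx⟩, ⟨x, hx⟩, rfl⟩

theorem extract [Fintype ι] [Fintype Z] (D : Line O ι Z) (hD : D.Ok) (σ : O → Option ι) (hp : D.Pre σ)
    (hL : D.Lok σ) (hR : D.Rok σ) (hu : D.up σ = ∅) (hd : D.down σ = ∅) :
    ∃ (K : Finset ι) (F : ι → Set O), Fintype.card ι ≤ K.card + Fintype.card Z ∧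
      (∀ k ∈ K, ∀ o ∈ F k, σ o ≠ none ∧ (∀ x, o ≠ D.unc x) ∧ (∀ x, o ≠ D.pL x) ∧ (∀ x, o ≠ D.pR x)) ∧
      (∀ k ∈ K, ∀ k' ∈ K, k ≠ k' → Disjoint (F k) (F k')) ∧
      (∀ k ∈ K, D.root k ∈ F k) ∧
      (∀ k ∈ K, ∀ o ∈ F k, ∀ o' ∈ F k, ∀ g, D.lo o ≤ g → g ≤ D.hi o' → ∃ o'' ∈ F k, D.lo o'' ≤ g ∧ g ≤ D.hi o'') ∧
      (∀ k ∈ K, ∀ k' ∈ K, D.rel k k' → ∀ g, g ≤ D.T → (∃ o ∈ F k, D.lo o ≤ g ∧ g ≤ D.hi o) ∨
        (∃ o ∈ F k', D.lo o ≤ g ∧ g ≤ D.hi o)) := by
  classical
  obtain ⟨S, hS1, hS2, hS3, hS4⟩ := ext7_sel (ι := ι) D.pR σ (fun x => (D.m x : ℤ))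
  obtain ⟨S', hS1', hS2', hS3', hS4'⟩ := ext7_sel (ι := ι) D.pL σ (fun x => -(D.m x : ℤ))
  have down : ∀ i, D.P i → ∀ g g', g ≤ g' → g' ≤ D.T → D.Busy σ i g' → D.Busy σ i g := by
    intro i hi g g' h1 h2 h3
    obtain ⟨n, rfl⟩ := Nat.exists_eq_add_of_le h1
    exact ext7_down D σ hu i hi n g h2 h3
  have up : ∀ j, ¬ D.P j → ∀ g g', g ≤ g' → g' ≤ D.T → D.Busy σ j g → D.Busy σ j g' := by
    intro j hj g g' h1 h2 h3
    obtain ⟨n, rfl⟩ := Nat.exists_eq_add_of_le h1
    exact ext7_up D σ hd j hj n g h2 h3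
  set U : ι → Prop := fun i => ∃ x, σ (D.unc x) = some i with hU
  set C : ι → Prop := fun i => ¬ U i ∧ (∀ x, σ (D.pR x) ≠ some i) ∧ (∀ x, σ (D.pL x) ≠ some i) with hC
  set M : ι → Z → ι → Prop := fun j x i => S' j x ∧ S i x ∧ ¬ U i ∧ ¬ U j with hM
  have MP : ∀ j x i, M j x i → D.P i := fun j x i h => hR x i (hS1 i x h.2.1)
  have MR : ∀ j x i, M j x i → ¬ D.P j := fun j x i h => hL x j (hS1' j x h.1)
  have MC : ∀ j x i, M j x i → ¬ C j := fun j x i h hc => hc.2.2 x (hS1' j x h.1)
  have MC' : ∀ j x i, M j x i → ¬ C i := fun j x i h hc => hc.2.1 x (hS1 i x h.2.1)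
  set K : Finset ι := Finset.univ.filter (fun k => C k ∨ ∃ x i, M k x i) with hK
  set F : ι → Set O := fun k => {o | (C k ∧ σ o = some k) ∨ ∃ x i, M k x i ∧
    ((σ o = some i ∧ D.lo o < D.m x) ∨ (σ o = some k ∧ D.m x ≤ D.hi o))} with hF
  have memK : ∀ k, k ∈ K ↔ (C k ∨ ∃ x i, M k x i) := by
    intro k
    simp [hK]
  have FC : ∀ k, C k → ∀ o, (o ∈ F k ↔ σ o = some k) := by
    intro k hk o
    constructor
    · rintro (h | ⟨x, i, h, -⟩)
      · exact h.2
      · exact absurd hk (MC k x i h)
    · intro h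
      exact Or.inl ⟨hk, h⟩
  have FM : ∀ k x i, M k x i → ∀ o, (o ∈ F k ↔ ((σ o = some i ∧ D.lo o < D.m x) ∨
      (σ o = some k ∧ D.m x ≤ D.hi o))) := by
    intro k x i hk o
    constructor
    · rintro (h | ⟨x', i', h, h'⟩)
      · exact absurd h.1 (MC k x i hk)
      · have e1 : x' = x := hS3' k x' x h.1 hk.1
        subst e1
        have e2 : i' = i := by
          have a := hS1 i' x' h.2.1
          have b := hS1 i x' hk.2.1
          rw [a] at b
          exact Option.some.inj b
        subst e2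
        exact h'
    · intro h
      exact Or.inr ⟨x, i, hk, h⟩
  have rootU : ∀ i, ¬ U i → σ (D.root i) = some i := by
    intro i hi
    rcases hp.rt i with h | h
    · exact h
    · exact absurd h hi
  have full : ∀ k x i, M k x i → ∀ g, g ≤ D.T → ∃ o ∈ F k, D.lo o ≤ g ∧ g ≤ D.hi o := by
    intro k x i hk g hg
    have hm1 := hD.m1 x
    have hmT := hD.mT x
    rcases Nat.lt_or_ge g (D.m x) with h | h
    · have hb : D.Busy σ i (D.m x) := ⟨D.pR x, hS1 i x hk.2.1, le_of_eq (hD.pRlo x), by rw [hD.pRhi x]; exact hmT⟩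
      obtain ⟨o, ho, h1, h2⟩ := down i (MP k x i hk) g (D.m x) h.le hmT hb
      exact ⟨o, (FM k x i hk o).2 (Or.inl ⟨ho, by omega⟩), h1, h2⟩
    · have hb : D.Busy σ k (D.m x - 1) := by
        refine ⟨D.pL x, hS1' k x hk.1, ?_, ?_⟩
        · rw [hD.pLlo x]; exact Nat.zero_le _
        · have := hD.pLhi x
          omega
      obtain ⟨o, ho, h1, h2⟩ := up k (MR k x i hk) (D.m x - 1) g (by omega) hg hb
      exact ⟨o, (FM k x i hk o).2 (Or.inr ⟨ho, by omega⟩), h1, h2⟩
  refine ⟨K, F, ?_, ?_, ?_, ?_, ?_, ?_⟩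
  · -- the count
    have hinj : ∀ k : {k : ι // k ∉ K}, ∃ x : Z, (U k.1 ∧ σ (D.unc x) = some k.1) ∨
        (¬ U k.1 ∧ D.P k.1 ∧ S k.1 x) ∨ (¬ U k.1 ∧ ¬ D.P k.1 ∧ S' k.1 x) := by
      rintro ⟨k, hk⟩
      rw [memK] at hk
      by_cases h1 : U k
      · obtain ⟨x, hx⟩ := h1
        exact ⟨x, Or.inl ⟨⟨x, hx⟩, hx⟩⟩
      · by_cases h2 : D.P k
        · have h3 : ∃ x, σ (D.pR x) = some k := by
            by_contra h4
            apply hk
            left
            refine ⟨h1, fun x hx => h4 ⟨x, hx⟩, fun x hx => hL x k hx h2⟩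
          obtain ⟨x, hx⟩ := h3
          obtain ⟨y, hy⟩ := hS4 k x hx
          exact ⟨y, Or.inr (Or.inl ⟨h1, h2, hy⟩)⟩
        · have h3 : ∃ x, σ (D.pL x) = some k := by
            by_contra h4
            apply hk
            left
            refine ⟨h1, fun x hx => h2 (hR x k hx), fun x hx => h4 ⟨x, hx⟩⟩
          obtain ⟨x, hx⟩ := h3
          obtain ⟨y, hy⟩ := hS4' k x hx
          exact ⟨y, Or.inr (Or.inr ⟨h1, h2, hy⟩)⟩
    choose f hf using hinj
    have hfi : Function.Injective f := by
      rintro ⟨k, hk⟩ ⟨k', hk'⟩ hkk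
      have a := hf ⟨k, hk⟩
      have b := hf ⟨k', hk'⟩
      rw [← hkk] at b
      simp only at a b
      generalize f ⟨k, hk⟩ = x at a b
      have key : k = k' := by
        rcases a with ⟨a1, a2⟩ | ⟨a1, a2, a3⟩ | ⟨a1, a2, a3⟩ <;> rcases b with ⟨b1, b2⟩ | ⟨b1, b2, b3⟩ | ⟨b1, b2, b3⟩
        · rw [a2] at b2
          exact Option.some.inj b2
        · have := (hp.one x (by rw [a2]; exact Option.some_ne_none _)).2
          rw [hS1 k' x b3] at this
          exact absurd this (Option.some_ne_none _)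
        · have := (hp.one x (by rw [a2]; exact Option.some_ne_none _)).1
          rw [hS1' k' x b3] at this
          exact absurd this (Option.some_ne_none _)
        · have := (hp.one x (by rw [b2]; exact Option.some_ne_none _)).2
          rw [hS1 k x a3] at this
          exact absurd this (Option.some_ne_none _)
        · have e1 := hS1 k x a3
          have e2 := hS1 k' x b3
          rw [e1] at e2
          exact Option.some.inj e2
        · exfalso
          apply hk'
          rw [memK]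
          right
          exact ⟨x, k, b3, a3, a1, b1⟩
        · have := (hp.one x (by rw [b2]; exact Option.some_ne_none _)).1
          rw [hS1' k x a3] at this
          exact absurd this (Option.some_ne_none _)
        · exfalso
          apply hk
          rw [memK]
          right
          exact ⟨x, k', a3, b3, b1, a1⟩
        · have e1 := hS1' k x a3
          have e2 := hS1' k' x b3
          rw [e1] at e2
          exact Option.some.inj e2
      exact Subtype.ext key
    have h1 : Fintype.card {k : ι // k ∉ K} ≤ Fintype.card Z := Fintype.card_le_of_injective f hfi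
    have h2 : Fintype.card {k : ι // k ∉ K} = Fintype.card ι - K.card := by
      rw [Fintype.card_subtype_compl (fun k => k ∈ K), Fintype.card_coe]
    have h3 : K.card ≤ Fintype.card ι := Finset.card_le_univ K
    omega
  · -- real objects
    intro k hk o ho
    rw [memK] at hk
    rcases hk with hk | ⟨x, i, hk⟩
    · rw [FC k hk] at ho
      refine ⟨by rw [ho]; exact Option.some_ne_none _, ?_, ?_, ?_⟩
      · rintro x rfl
        exact hk.1 ⟨x, ho⟩
      · rintro x rfl
        exact hk.2.2 x ho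
      · rintro x rfl
        exact hk.2.1 x ho
    · rw [FM k x i hk] at ho
      rcases ho with ⟨ho, h1⟩ | ⟨ho, h1⟩
      · refine ⟨by rw [ho]; exact Option.some_ne_none _, ?_, ?_, ?_⟩
        · rintro y rfl
          exact hk.2.2.1 ⟨y, ho⟩
        · rintro y rfl
          exact hL y i ho (MP k x i hk)
        · rintro y rfl
          have := hS2 i x hk.2.1 y ho
          rw [hD.pRlo y] at h1
          omega
      · refine ⟨by rw [ho]; exact Option.some_ne_none _, ?_, ?_, ?_⟩
        · rintro y rfl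
          exact hk.2.2.2 ⟨y, ho⟩
        · rintro y rfl
          have h2 := hS2' k x hk.1 y ho
          have h3 := hD.pLhi y
          omega
        · rintro y rfl
          exact MR k x i hk (hR y k ho)
  · -- disjoint
    intro k hk k' hk' hne
    rw [memK] at hk hk'
    rw [Set.disjoint_left]
    intro o h1 h2
    rcases hk with hk | ⟨x, i, hk⟩ <;> rcases hk' with hk' | ⟨x', i', hk'⟩
    · rw [FC k hk] at h1
      rw [FC k' hk'] at h2
      rw [h1] at h2
      exact hne (Option.some.inj h2)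
    · rw [FC k hk] at h1
      rw [FM k' x' i' hk'] at h2
      rcases h2 with ⟨h2, -⟩ | ⟨h2, -⟩
      · rw [h1] at h2
        rw [Option.some.inj h2] at hk
        exact MC' k' x' i' hk' hk
      · rw [h1] at h2
        exact hne (Option.some.inj h2)
    · rw [FC k' hk'] at h2
      rw [FM k x i hk] at h1
      rcases h1 with ⟨h1, -⟩ | ⟨h1, -⟩
      · rw [h2] at h1
        rw [Option.some.inj h1] at hk'
        exact MC' k x i hk hk'
      · rw [h2] at h1
        exact hne (Option.some.inj h1).symm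
    · rw [FM k x i hk] at h1
      rw [FM k' x' i' hk'] at h2
      have hii : i ≠ i' := by
        intro e
        subst e
        have e1 : x = x' := hS3 i x x' hk.2.1 hk'.2.1
        subst e1
        have e2 := hS1' k x hk.1
        have e3 := hS1' k' x hk'.1
        rw [e2] at e3
        exact hne (Option.some.inj e3)
      rcases h1 with ⟨h1, -⟩ | ⟨h1, -⟩ <;> rcases h2 with ⟨h2, -⟩ | ⟨h2, -⟩
      · rw [h1] at h2
        exact hii (Option.some.inj h2)
      · rw [h1] at h2
        have := MP k x i hk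
        rw [Option.some.inj h2] at this
        exact MR k' x' i' hk' this
      · rw [h1] at h2
        have := MP k' x' i' hk'
        rw [← Option.some.inj h2] at this
        exact MR k x i hk this
      · rw [h1] at h2
        exact hne (Option.some.inj h2)
  · -- roots
    intro k hk
    rw [memK] at hk
    rcases hk with hk | ⟨x, i, hk⟩
    · rw [FC k hk]
      exact rootU k hk.1
    · rw [FM k x i hk]
      right
      refine ⟨rootU k hk.2.2.2, ?_⟩
      rw [hD.rootR k (MR k x i hk)]
      exact hD.mT x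
  · -- connected
    intro k hk o ho o' ho' g h1 h2
    have hgT : g ≤ D.T := h2.trans (hD.hiT o')
    rw [memK] at hk
    rcases hk with hk | ⟨x, i, hk⟩
    · rw [FC k hk] at ho ho'
      by_cases hP : D.P k
      · obtain ⟨o2, h3, h4, h5⟩ := down k hP g (D.hi o') h2 (hD.hiT o')
          ⟨o', ho', hD.lohi o', le_refl _⟩
        exact ⟨o2, (FC k hk o2).2 h3, h4, h5⟩
      · obtain ⟨o2, h3, h4, h5⟩ := up k hP (D.lo o) g h1 hgT ⟨o, ho, le_refl _, hD.lohi o⟩
        exact ⟨o2, (FC k hk o2).2 h3, h4, h5⟩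
    · exact full k x i hk g hgT
  · -- required pairs
    intro k hk k' hk' hr g hg
    have hPk := hD.relP k k' hr
    have hRk := hD.relR k k' hr
    rw [memK] at hk hk'
    rcases hk' with hk' | ⟨x, i, hk'⟩
    · rcases hk with hk | ⟨x, i, hk⟩
      · rcases hp.cov k k' hr g hg with ⟨o, h1, h2, h3⟩ | ⟨o, h1, h2, h3⟩
        · exact Or.inl ⟨o, (FC k hk o).2 h1, h2, h3⟩
        · exact Or.inr ⟨o, (FC k' hk' o).2 h1, h2, h3⟩
      · exact absurd hPk (MR k x i hk)
    · exact Or.inr (full k' x i hk' g hg)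

end Pool.Agent.Lib.MP_534936_co.HW
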