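import Pool.Agent.Lib.MP_534936_co.HW.D6
import Pool.Agent.Lib.MP_534936_co.HW.D7
import Pool.Agent.Lib.MP_534936_co.HW.B1

/-!
# From a labelled line with real objects `V` to the branch sets

Proof. `exists_flat`, then `extract`. The sets of `V` are the preimages under `Sum.inl`. They are connected by
`conn_of_run`. Two sets `k ≠ k'`: both `P`: the roots cross the gap `0`; both `R`: the roots cross `T`; `P`, `R` and
`rel k k'`: all gaps are busy for one of them, so at some gap or at two consecutive gaps they touch; `P`, `R`, not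
`rel k k'`: `hin`.
-/

set_option autoImplicit false

namespace Pool.Agent.Lib.MP_534936_co.HW

theorem flat_sets {V ι Z : Type} [Fintype V] [Fintype ι] [Fintype Z] (D : Line (V ⊕ (Z ⊕ (Z ⊕ Z))) ι Z)
    (hD : D.Ok) (hunc : ∀ x, D.unc x = Sum.inr (Sum.inl x)) (hpL : ∀ x, D.pL x = Sum.inr (Sum.inr (Sum.inl x)))
    (hpR : ∀ x, D.pR x = Sum.inr (Sum.inr (Sum.inr x)))
    (rv : ι → V) (hrv : ∀ i, D.root i = Sum.inl (rv i))
    (σ : V ⊕ (Z ⊕ (Z ⊕ Z)) → Option ι) (hp : D.Pre σ) (hL : D.Lok σ) (hR : D.Rok σ)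
    (G : SimpleGraph V)
    (hG : ∀ u w, u ≠ w → D.lo (Sum.inl u) ≤ D.hi (Sum.inl w) + 1 → D.lo (Sum.inl w) ≤ D.hi (Sum.inl u) + 1 →
      G.Adj u w)
    (hin : ∀ i j, D.P i → ¬ D.P j → ¬ D.rel i j → G.Adj (rv i) (rv j))
    (n : ℕ) (hn : n + Fintype.card Z ≤ Fintype.card ι) :
    ∃ f : Fin n → Set V, (∀ k, (G.induce (f k)).Connected) ∧ (∀ k, ∃ i, rv i ∈ f k) ∧
      ∀ k k', k ≠ k' → Disjoint (f k) (f k') ∧ ∃ x ∈ f k, ∃ y ∈ f k', G.Adj x y := by
  classical
  obtain ⟨σ', hp', hL', hR', hu, hd⟩ := exists_flat D hD σ hp hL hR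
  obtain ⟨K, F, hK, hreal, hdisj, hroot, hrun, hcov⟩ := extract D hD σ' hp' hL' hR' hu hd
  have hnK : n ≤ K.card := by omega
  have hreal' : ∀ k ∈ K, ∀ o ∈ F k, ∃ v : V, o = Sum.inl v := by
    intro k hk o ho
    obtain ⟨-, h1, h2, h3⟩ := hreal k hk o ho
    rcases o with v | x | x | x
    · exact ⟨v, rfl⟩
    · exact absurd (hunc x).symm (h1 x)
    · exact absurd (hpL x).symm (h2 x)
    · exact absurd (hpR x).symm (h3 x)
  have hcard : Fintype.card (Fin n) ≤ Fintype.card K := by simpa using hnK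
  obtain ⟨e⟩ := Function.Embedding.nonempty_of_card_le hcard
  have hrootv : ∀ k ∈ K, Sum.inl (rv k) ∈ F k := by
    intro k hk
    have := hroot k hk
    rwa [hrv k] at this
  -- different sets have different elements
  have hne : ∀ i ∈ K, ∀ j ∈ K, i ≠ j → ∀ u w : V, Sum.inl u ∈ F i → Sum.inl w ∈ F j → u ≠ w := by
    intro i hi j hj hij u w hu' hw huw
    subst huw
    exact Set.disjoint_left.mp (hdisj i hi j hj hij) hu' hw
  -- a `P` set and an `R` set touch
  have touch : ∀ i ∈ K, ∀ j ∈ K, D.P i → ¬ D.P j →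
      ∃ x : V, Sum.inl x ∈ F i ∧ ∃ y : V, Sum.inl y ∈ F j ∧ G.Adj x y := by
    intro i hi j hj hPi hPj
    have hij : i ≠ j := fun h => hPj (h ▸ hPi)
    by_cases hrel : D.rel i j
    · -- find consecutive gaps
      have hc := hcov i hi j hj hrel
      have h0 : ∃ o ∈ F i, D.lo o ≤ 0 ∧ 0 ≤ D.hi o :=
        ⟨D.root i, hroot i hi, by rw [hD.rootP i hPi], Nat.zero_le _⟩
      have hT : ∃ o ∈ F j, D.lo o ≤ D.T ∧ D.T ≤ D.hi o :=
        ⟨D.root j, hroot j hj, by
          have := hD.lohi (D.root j); have := hD.hiT (D.root j); omega, by rw [hD.rootR j hPj]⟩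
      have key : ∃ g g', (g' = g ∨ g' = g + 1) ∧ (∃ o ∈ F i, D.lo o ≤ g ∧ g ≤ D.hi o) ∧
          (∃ o ∈ F j, D.lo o ≤ g' ∧ g' ≤ D.hi o) := by
        by_contra hcon
        push Not at hcon
        have hall : ∀ g, g ≤ D.T → ∃ o ∈ F i, D.lo o ≤ g ∧ g ≤ D.hi o := by
          intro g
          induction g with
          | zero => intro _; exact h0
          | succ g ih =>
            intro hg
            have hgi := ih (by omega)
            rcases hc (g + 1) hg with h | h
            · exact h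
            · obtain ⟨o, ho, h1, h2⟩ := h
              exact absurd h2 (by
                have := hcon g (g + 1) (Or.inr rfl) hgi o ho h1
                omega)
        obtain ⟨o, ho, h1, h2⟩ := hT
        have := hcon D.T D.T (Or.inl rfl) (hall D.T le_rfl) o ho h1
        omega
      obtain ⟨g, g', hgg, ⟨o, ho, h1, h2⟩, ⟨o', ho', h1', h2'⟩⟩ := key
      obtain ⟨x, rfl⟩ := hreal' i hi o ho
      obtain ⟨y, rfl⟩ := hreal' j hj o' ho'
      refine ⟨x, ho, y, ho', hG x y (hne i hi j hj hij x y ho ho') ?_ ?_⟩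
      · rcases hgg with h | h <;> omega
      · rcases hgg with h | h <;> omega
    · exact ⟨rv i, hrootv i hi, rv j, hrootv j hj, hin i j hPi hPj hrel⟩
  refine ⟨fun k => {v : V | Sum.inl v ∈ F (e k).1}, ?_, ?_, ?_⟩
  · intro k
    have hk := (e k).2
    apply conn_of_run G (fun v => D.lo (Sum.inl v)) (fun v => D.hi (Sum.inl v))
    · exact ⟨rv (e k).1, hrootv _ hk⟩
    · intro u _
      exact hD.lohi _
    · intro u _ w _ huw h1 h2
      exact hG u w huw h1 h2
    · intro u hu' w hw g h1 h2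
      obtain ⟨o, ho, h3, h4⟩ := hrun _ hk (Sum.inl u) hu' (Sum.inl w) hw g h1 h2
      obtain ⟨x, rfl⟩ := hreal' _ hk o ho
      exact ⟨x, ho, h3, h4⟩
  · intro k
    exact ⟨(e k).1, hrootv _ (e k).2⟩
  · intro k k' hkk
    have hk := (e k).2
    have hk' := (e k').2
    have hne' : (e k).1 ≠ (e k').1 := fun h => hkk (e.injective (Subtype.ext h))
    constructor
    · rw [Set.disjoint_left]
      intro v hv hv'
      exact hne _ hk _ hk' hne' v v hv hv' rfl
    · by_cases hP : D.P (e k).1 <;> by_cases hP' : D.P (e k').1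
      · refine ⟨rv (e k).1, hrootv _ hk, rv (e k').1, hrootv _ hk', hG _ _ (hne _ hk _ hk' hne' _ _ (hrootv _ hk)
          (hrootv _ hk')) ?_ ?_⟩
        · have := hD.rootP _ hP
          rw [hrv] at this
          omega
        · have := hD.rootP _ hP'
          rw [hrv] at this
          omega
      · obtain ⟨x, hx, y, hy, h⟩ := touch _ hk _ hk' hP hP'
        exact ⟨x, hx, y, hy, h⟩
      · obtain ⟨x, hx, y, hy, h⟩ := touch _ hk' _ hk hP' hP
        exact ⟨y, hy, x, hx, h.symm⟩
      · refine ⟨rv (e k).1, hrootv _ hk, rv (e k').1, hrootv _ hk', hG _ _ (hne _ hk _ hk' hne' _ _ (hrootv _ hk)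
          (hrootv _ hk')) ?_ ?_⟩
        · have h1 := hD.rootR _ hP'
          have h2 := hD.lohi (Sum.inl (rv (e k).1))
          have h3 := hD.hiT (Sum.inl (rv (e k).1))
          rw [hrv] at h1
          omega
        · have h1 := hD.rootR _ hP
          have h2 := hD.lohi (Sum.inl (rv (e k').1))
          have h3 := hD.hiT (Sum.inl (rv (e k').1))
          rw [hrv] at h1
          omega

end Pool.Agent.Lib.MP_534936_co.HW
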