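import Pool.Agent.Lib.MP_534936_co.Cross

/-!
# Arcs which do not contain both ends of the shortest arc `[0, L]`

The cycle is `ℤ / N`, the arc of `u` is `[a u, a u + l u]`, `L ≤ l u`, and it does not contain both `0` and `L`.
Outside `[0, L]` there are the gaps `0, …, T` with `T = N - 1 - L`, the gap `g` is between the points `L + g` and
`L + g + 1`.
-/

set_option autoImplicit false

namespace Pool.Agent.Lib.MP_534936_co.HW

open Pool.Agent.Lib.MP_534936_co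

/-- first gap crossed by `[a, a + l]` -/
def glo (L a : ℤ) : ℕ := (a - L).toNat

/-- last gap crossed by `[a, a + l]` -/
def ghi (N L a l : ℤ) : ℕ := (min (a + l - 1 - L) (N - 1 - L)).toNat

private theorem E1_modLt (N x : ℤ) (h0 : 0 ≤ x) (h1 : x < N) : x % N = x := Int.emod_eq_of_lt h0 h1

private theorem E1_modNeg (N x : ℤ) (h0 : -N ≤ x) (h1 : x < 0) : x % N = x + N := by
  have h : (x + N) % N = x % N := Int.add_emod_right x N
  rw [← h]
  exact Int.emod_eq_of_lt (by omega) (by omega)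

private theorem E1_facts (N L a l : ℤ) (hL : 1 ≤ L) (hLN : L < N) (ha : 0 ≤ a ∧ a < N) (hl : L ≤ l ∧ l < N)
    (hcom : ¬ ((0 - a) % N ≤ l ∧ (L - a) % N ≤ l)) :
    1 ≤ a ∧ ((0 - a) % N ≤ l ↔ N ≤ a + l) ∧ ((L - a) % N ≤ l ↔ (a ≤ L ∨ N + L ≤ a + l)) ∧
      (a ≤ L → a + l < N) ∧ (L < a → a + l < N + L) := by
  have ha1 : 1 ≤ a := by
    by_contra h
    have h0 : a = 0 := by omega
    subst h0
    apply hcom
    rw [E1_modLt N (0 - 0) (by omega) (by omega), E1_modLt N (L - 0) (by omega) (by omega)]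
    omega
  have e1 : (0 - a) % N = 0 - a + N := E1_modNeg N (0 - a) (by omega) (by omega)
  rw [e1] at hcom ⊢
  by_cases haL : a ≤ L
  · rw [E1_modLt N (L - a) (by omega) (by omega)] at hcom ⊢
    omega
  · rw [E1_modNeg N (L - a) (by omega) (by omega)] at hcom ⊢
    omega

theorem glo_le_ghi (N L a l : ℤ) (hL : 1 ≤ L) (hLN : L < N) (ha : 0 ≤ a ∧ a < N) (hl : L ≤ l ∧ l < N)
    (hcom : ¬ ((0 - a) % N ≤ l ∧ (L - a) % N ≤ l)) :
    glo L a ≤ ghi N L a l ∧ ghi N L a l ≤ (N - 1 - L).toNat := by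
  obtain ⟨h1, h2, h3, h4, h5⟩ := E1_facts N L a l hL hLN ha hl hcom
  unfold glo ghi
  omega

theorem not_both (N L a l : ℤ) (hL : 1 ≤ L) (hLN : L < N) (ha : 0 ≤ a ∧ a < N) (hl : L ≤ l ∧ l < N)
    (hcom : ¬ ((0 - a) % N ≤ l ∧ (L - a) % N ≤ l)) :
    ¬ (glo L a = 0 ∧ ghi N L a l = (N - 1 - L).toNat) := by
  obtain ⟨h1, h2, h3, h4, h5⟩ := E1_facts N L a l hL hLN ha hl hcom
  unfold glo ghi
  omega

/-- the first gap is `0` iff the arc contains `L`; the last gap is `T` iff the arc contains `0` -/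
theorem glo_zero (N L a l : ℤ) (hL : 1 ≤ L) (hLN : L < N) (ha : 0 ≤ a ∧ a < N) (hl : L ≤ l ∧ l < N)
    (hcom : ¬ ((0 - a) % N ≤ l ∧ (L - a) % N ≤ l)) : glo L a = 0 ↔ (L - a) % N ≤ l := by
  obtain ⟨h1, h2, h3, h4, h5⟩ := E1_facts N L a l hL hLN ha hl hcom
  rw [h3]
  unfold glo
  omega

theorem ghi_T (N L a l : ℤ) (hL : 1 ≤ L) (hLN : L < N) (ha : 0 ≤ a ∧ a < N) (hl : L ≤ l ∧ l < N)
    (hcom : ¬ ((0 - a) % N ≤ l ∧ (L - a) % N ≤ l)) :
    ghi N L a l = (N - 1 - L).toNat ↔ (0 - a) % N ≤ l := by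
  obtain ⟨h1, h2, h3, h4, h5⟩ := E1_facts N L a l hL hLN ha hl hcom
  rw [h2]
  unfold ghi
  omega

private theorem E1_meet (N a l b k : ℤ) (hN : 0 < N) (hl : 0 ≤ l ∧ l < N) (hk : 0 ≤ k ∧ k < N)
    (hab : a ≤ b) (hbN : b - a < N) :
    (∃ p : ℤ, (p - a) % N ≤ l ∧ (p - b) % N ≤ k) ↔ (b - a ≤ l ∨ a = b ∨ a - b + N ≤ k) := by
  constructor
  · rintro ⟨p, h1, h2⟩
    have hx0 := Int.emod_nonneg (p - a) (by omega : N ≠ 0)
    have hy0 := Int.emod_nonneg (p - b) (by omega : N ≠ 0)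
    have hx : (p - a) % N + N * ((p - a) / N) = p - a := Int.emod_add_mul_ediv _ _
    have hy : (p - b) % N + N * ((p - b) / N) = p - b := Int.emod_add_mul_ediv _ _
    set x := (p - a) % N
    set y := (p - b) % N
    set u := (p - a) / N
    set v := (p - b) / N
    have h3 : x - y + N * (u - v) = b - a := by linarith [mul_sub N u v]
    by_cases h4 : b - a ≤ l
    · exact Or.inl h4
    · right
      right
      have h5 : 1 ≤ u - v := by
        by_contra h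
        have : N * (u - v) ≤ 0 := by nlinarith
        omega
      have h6 : N ≤ N * (u - v) := by nlinarith
      omega
  · rintro (h | h | h)
    · refine ⟨b, ?_, ?_⟩
      · rw [E1_modLt N (b - a) (by omega) (by omega)]
        exact h
      · rw [sub_self, Int.zero_emod]
        omega
    · subst h
      refine ⟨a, ?_, ?_⟩ <;> rw [sub_self, Int.zero_emod] <;> omega
    · refine ⟨a, ?_, ?_⟩
      · rw [sub_self, Int.zero_emod]
        omega
      · by_cases hz : a = b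
        · subst hz
          rw [sub_self, Int.zero_emod]
          omega
        · rw [E1_modNeg N (a - b) (by omega) (by omega)]
          exact h

private theorem E1_main (N L a l b k : ℤ) (hL : 1 ≤ L) (hLN : L < N) (ha : 1 ≤ a ∧ a < N) (hl : L ≤ l ∧ l < N)
    (hb : 1 ≤ b ∧ b < N) (hk : L ≤ k ∧ k < N) (ha4 : a ≤ L → a + l < N) (ha5 : L < a → a + l < N + L)
    (hb4 : b ≤ L → b + k < N) (hb5 : L < b → b + k < N + L) (hab : a ≤ b) :
    (b - a ≤ l ∨ a = b ∨ a - b + N ≤ k) ↔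
      ((glo L a ≤ ghi N L b k + 1 ∧ glo L b ≤ ghi N L a l + 1) ∨
        (glo L a = 0 ∧ ghi N L b k = (N - 1 - L).toNat ∧ a ≤ b + k - N) ∨
        (glo L b = 0 ∧ ghi N L a l = (N - 1 - L).toNat ∧ b ≤ a + l - N)) := by
  unfold glo ghi
  omega

/-- adjacency of two such arcs -/
theorem meet_iff (N L a l b k : ℤ) (hL : 1 ≤ L) (hLN : L < N) (ha : 0 ≤ a ∧ a < N) (hl : L ≤ l ∧ l < N)
    (hb : 0 ≤ b ∧ b < N) (hk : L ≤ k ∧ k < N)
    (hcom : ¬ ((0 - a) % N ≤ l ∧ (L - a) % N ≤ l)) (hcom' : ¬ ((0 - b) % N ≤ k ∧ (L - b) % N ≤ k)) :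
    (∃ p : ℤ, (p - a) % N ≤ l ∧ (p - b) % N ≤ k) ↔
      ((glo L a ≤ ghi N L b k + 1 ∧ glo L b ≤ ghi N L a l + 1) ∨
        (glo L a = 0 ∧ ghi N L b k = (N - 1 - L).toNat ∧ a ≤ b + k - N) ∨
        (glo L b = 0 ∧ ghi N L a l = (N - 1 - L).toNat ∧ b ≤ a + l - N)) := by
  obtain ⟨a1, -, -, a4, a5⟩ := E1_facts N L a l hL hLN ha hl hcom
  obtain ⟨b1, -, -, b4, b5⟩ := E1_facts N L b k hL hLN hb hk hcom'
  rcases le_total a b with hab | hab
  · rw [E1_meet N a l b k (by omega) (by omega) (by omega) hab (by omega)]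
    exact E1_main N L a l b k hL hLN ⟨a1, ha.2⟩ hl ⟨b1, hb.2⟩ hk a4 a5 b4 b5 hab
  · have h1 : (∃ p : ℤ, (p - a) % N ≤ l ∧ (p - b) % N ≤ k) ↔ (∃ p : ℤ, (p - b) % N ≤ k ∧ (p - a) % N ≤ l) := by
      constructor <;> rintro ⟨p, h, h'⟩ <;> exact ⟨p, h', h⟩
    rw [h1, E1_meet N b k a l (by omega) (by omega) (by omega) hab (by omega),
      E1_main N L b k a l hL hLN ⟨b1, hb.2⟩ hk ⟨a1, ha.2⟩ hl b4 b5 a4 a5 hab]
    constructor
    · rintro (h | h | h)
      · exact Or.inl ⟨h.2, h.1⟩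
      · exact Or.inr (Or.inr h)
      · exact Or.inr (Or.inl h)
    · rintro (h | h | h)
      · exact Or.inl ⟨h.2, h.1⟩
      · exact Or.inr (Or.inr h)
      · exact Or.inr (Or.inl h)

end Pool.Agent.Lib.MP_534936_co.HW
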