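import Pool.Agent.Lib.MP_534936_co.HW.K1

/-!
# Token paths and thresholds

`Tok c S q g`: there is a token path with the rows `S` (before) and `q` (last), all different, which reaches `q` at the
gap `g` or earlier. It starts in a row without `P` root.
Proof of `tok_root` (a row reached at a gap `≤ T` has an `R` root): induction on `S.card` for all colourings. If the last
row `q` has no `R` root and `S = ∅` then `q` has no root at all, contradiction to `hno`. Otherwise the last step is from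
`z` to `q` at a common idle gap `g`; swap `z` and `q` to the right of `g` (`shiftCol_proper`); then there is a token
path with the rows `S \ {z}` to `z` in the new colouring (the rows in it did not change, `z` did not change left of `g`),
and `z` has no `R` root.
`kempe`: `t q` = least `g` with `∃ S, Tok c S q g` if this is `≤ T`, else `T + 1`.
-/

set_option autoImplicit false

namespace Pool.Agent.Lib.MP_534936_co.HW

/-- token paths -/
inductive Tok {V : Type} (T : ℕ) (lo hi : V → ℕ) (lam rho : V → ℤ) (Q : Finset ℕ) (c : V → ℕ) :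
    Finset ℕ → ℕ → ℕ → Prop
  | base (q g : ℕ) (hq : q ∈ Q) (h0 : ∀ u, c u = q → lo u ≠ 0) : Tok T lo hi lam rho Q c ∅ q g
  | step (S : Finset ℕ) (z q g g' : ℕ) (h : Tok T lo hi lam rho Q c S z g) (hq : q ∈ Q) (hqS : q ∉ insert z S)
      (hg : g ≤ g') (hz : Idle lo hi c z g) (hq' : Idle lo hi c q g)
      (hc : ∀ u w, c u = q → lo u = 0 → c w = z → hi w = T → rho w < lam u) :
      Tok T lo hi lam rho Q c (insert z S) q g'

/-- idle gaps left of the swap stay idle -/
theorem idle_shift {V : Type} {lo hi : V → ℕ} {c : V → ℕ} {z q g0 x g : ℕ} (hg : g ≤ g0)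
    (h : Idle lo hi c x g) : Idle lo hi (shiftCol lo c z q g0) x g := by
  intro u hu hgu
  have h1 : ¬ g0 < lo u := by omega
  simp only [shiftCol, if_neg h1] at hu
  exact h u hu hgu

theorem shiftCol_root {V : Type} {lo : V → ℕ} {c : V → ℕ} {z q g0 : ℕ} {u : V} (hu : lo u = 0) :
    shiftCol lo c z q g0 u = c u := by
  have h1 : ¬ g0 < lo u := by omega
  simp only [shiftCol, if_neg h1]

theorem shiftCol_other {V : Type} {lo : V → ℕ} {c : V → ℕ} {z q g0 x : ℕ} {u : V} (hxz : x ≠ z) (hxq : x ≠ q)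
    (h : shiftCol lo c z q g0 u = x) : c u = x := by
  unfold shiftCol at h
  split_ifs at h with h1
  · unfold swp at h
    split_ifs at h with h2 h3
    · exact absurd h.symm hxq
    · exact absurd h.symm hxz
    · exact h
  · exact h

theorem Tok.mono {V : Type} {T : ℕ} {lo hi : V → ℕ} {lam rho : V → ℤ} {Q : Finset ℕ} {c : V → ℕ}
    {S : Finset ℕ} {q g g1 : ℕ} (h : Tok T lo hi lam rho Q c S q g) (hg : g ≤ g1) :
    Tok T lo hi lam rho Q c S q g1 := by
  cases h with
  | base q g hq h0 => exact Tok.base q g1 hq h0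
  | step S z q g0 g' h hq hqS hg' hz hq' hc => exact Tok.step S z q g0 g1 h hq hqS (hg'.trans hg) hz hq' hc

theorem Tok.mem {V : Type} {T : ℕ} {lo hi : V → ℕ} {lam rho : V → ℤ} {Q : Finset ℕ} {c : V → ℕ}
    {S : Finset ℕ} {q g : ℕ} (h : Tok T lo hi lam rho Q c S q g) : q ∈ Q := by
  cases h with
  | base q g hq h0 => exact hq
  | step S z q g0 g' h hq hqS hg' hz hq' hc => exact hq

theorem Tok.notMem {V : Type} {T : ℕ} {lo hi : V → ℕ} {lam rho : V → ℤ} {Q : Finset ℕ} {c : V → ℕ}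
    {S : Finset ℕ} {q g : ℕ} (h : Tok T lo hi lam rho Q c S q g) : q ∉ S := by
  cases h with
  | base q g hq h0 => simp
  | step S z q g0 g' h hq hqS hg' hz hq' hc => exact hqS

theorem Tok.sub {V : Type} {T : ℕ} {lo hi : V → ℕ} {lam rho : V → ℤ} {Q : Finset ℕ} {c : V → ℕ}
    {S : Finset ℕ} {z g : ℕ} (h : Tok T lo hi lam rho Q c S z g) {q : ℕ} (hq : q ∈ S) :
    ∃ S' g', g' ≤ g ∧ Tok T lo hi lam rho Q c S' q g' := by
  induction h with
  | base => simp at hq
  | step S z1 z g g' h hq1 hqS hg' hz hq' hc ih =>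
    rcases Finset.mem_insert.1 hq with h1 | h1
    · subst h1
      exact ⟨S, g, hg', h⟩
    · obtain ⟨S', g'', h2, h3⟩ := ih h1
      exact ⟨S', g'', h2.trans hg', h3⟩

theorem Tok.shift {V : Type} {T : ℕ} {lo hi : V → ℕ} {lam rho : V → ℤ} {Q : Finset ℕ} {c : V → ℕ}
    {z q g0 : ℕ} {S : Finset ℕ} {x g : ℕ} (h : Tok T lo hi lam rho Q c S x g) (hg : g ≤ g0) (hz : z ∉ S)
    (hq : q ∉ S) : Tok T lo hi lam rho Q (shiftCol lo c z q g0) S x g := by
  induction h with
  | base x g hx h0 =>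
    refine Tok.base x g hx ?_
    intro u hu h1
    exact h0 u (by rw [shiftCol_root h1] at hu; exact hu) h1
  | step S z1 x g g' h hx hxS hg' hi1 hi2 hc ih =>
    simp only [Finset.mem_insert, not_or] at hz hq
    refine Tok.step S z1 x g g' (ih (hg'.trans hg) hz.2 hq.2) hx hxS hg' (idle_shift (hg'.trans hg) hi1)
      (idle_shift (hg'.trans hg) hi2) ?_
    intro u w hu hu0 hw hwT
    rw [shiftCol_root hu0] at hu
    exact hc u w hu hu0 (shiftCol_other (fun e => hz.1 e.symm) (fun e => hq.1 e.symm) hw) hwT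

theorem tok_root {V : Type} (G : SimpleGraph V) (T : ℕ) (lo hi : V → ℕ) (lam rho : V → ℤ)
    (hlh : ∀ u, lo u ≤ hi u ∧ hi u ≤ T)
    (hG : ∀ u w, G.Adj u w → u ≠ w ∧ ((lo u ≤ hi w + 1 ∧ lo w ≤ hi u + 1) ∨
      (lo u = 0 ∧ hi w = T ∧ lam u ≤ rho w) ∨ (lo w = 0 ∧ hi u = T ∧ lam w ≤ rho u)))
    (Q : Finset ℕ)
    (hno : ∀ c : V → ℕ, (∀ u, c u ∈ Q) → (∀ u w, G.Adj u w → c u ≠ c w) →
      ∀ q ∈ Q, ∃ u, c u = q ∧ (lo u = 0 ∨ hi u = T)) :
    ∀ (n : ℕ) (c : V → ℕ), (∀ u, c u ∈ Q) → (∀ u w, G.Adj u w → c u ≠ c w) →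
      ∀ (S : Finset ℕ) (q g : ℕ), S.card = n → g ≤ T → Tok T lo hi lam rho Q c S q g →
        ∃ u, c u = q ∧ hi u = T := by
  intro n
  induction n with
  | zero =>
    intro c hcQ hcp S q g hS hg h
    cases h with
    | base q g hq h0 =>
      obtain ⟨u, hu, hu'⟩ := hno c hcQ hcp q hq
      rcases hu' with h1 | h1
      · exact absurd h1 (h0 u hu)
      · exact ⟨u, hu, h1⟩
    | step S z q g0 g' h hq hqS hg' hz hq' hc =>
      exact absurd (Finset.card_eq_zero.1 hS) (Finset.insert_ne_empty z S)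
  | succ n ih =>
    intro c hcQ hcp S q g hS hg h
    cases h with
    | base q g hq h0 => simp at hS
    | step S z q g0 g' h hq hqS hg' hz hq' hc =>
      by_contra hR
      push Not at hR
      have hqz : q ≠ z := fun e => hqS (by rw [e]; exact Finset.mem_insert_self z S)
      have hqS' : q ∉ S := fun e => hqS (Finset.mem_insert_of_mem e)
      have hzS : z ∉ S := h.notMem
      have hzQ : z ∈ Q := h.mem
      rw [Finset.card_insert_of_notMem hzS] at hS
      have hp := shiftCol_proper G T lo hi lam rho hlh hG c hcp z q g0 hz hq' hc hR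
      have hQ : ∀ u, shiftCol lo c z q g0 u ∈ Q := by
        intro u
        unfold shiftCol
        split_ifs
        · unfold swp
          split_ifs
          · exact hq
          · exact hzQ
          · exact hcQ u
        · exact hcQ u
      obtain ⟨u, hu, huT⟩ := ih (shiftCol lo c z q g0) hQ hp S z g0 (by omega) (by omega)
        (h.shift le_rfl hzS hqS')
      unfold shiftCol at hu
      split_ifs at hu with h1
      · unfold swp at hu
        split_ifs at hu with h2 h3
        · exact hqz hu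
        · exact hR u h3 huT
        · exact h2 hu
      · exact hz u hu ⟨by omega, by omega⟩

theorem kempe {V : Type} (G : SimpleGraph V) (T : ℕ) (lo hi : V → ℕ) (lam rho : V → ℤ)
    (hlh : ∀ u, lo u ≤ hi u ∧ hi u ≤ T)
    (hG : ∀ u w, G.Adj u w → u ≠ w ∧ ((lo u ≤ hi w + 1 ∧ lo w ≤ hi u + 1) ∨
      (lo u = 0 ∧ hi w = T ∧ lam u ≤ rho w) ∨ (lo w = 0 ∧ hi u = T ∧ lam w ≤ rho u)))
    (Q : Finset ℕ)
    (hno : ∀ c : V → ℕ, (∀ u, c u ∈ Q) → (∀ u w, G.Adj u w → c u ≠ c w) →
      ∀ q ∈ Q, ∃ u, c u = q ∧ (lo u = 0 ∨ hi u = T))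
    (c : V → ℕ) (hc : ∀ u, c u ∈ Q) (hcp : ∀ u w, G.Adj u w → c u ≠ c w)
    (huniq : ∀ u w, lo u = 0 → lo w = 0 → c u = c w → u = w)
    (huniq' : ∀ u w, hi u = T → hi w = T → c u = c w → u = w) :
    ∃ t : ℕ → ℕ,
      (∀ q ∈ Q, (∀ u, c u = q → lo u ≠ 0) → t q = 0) ∧
      (∀ q ∈ Q, (∀ u, c u = q → hi u ≠ T) → T < t q) ∧
      (∀ q ∈ Q, (∃ u, c u = q ∧ lo u = 0) → t q ≤ T → Idle lo hi c q (t q)) ∧
      (∀ u w, lo u = 0 → hi w = T → c u ≠ c w → rho w < lam u → ∀ g, g ≤ T → Idle lo hi c (c u) g →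
        g < t (c u) → Idle lo hi c (c w) g → t (c w) ≤ g → False) := by
  classical
  let t : ℕ → ℕ := fun q => if h : ∃ g, g ≤ T ∧ ∃ S, Tok T lo hi lam rho Q c S q g then Nat.find h else T + 1
  have ht1 : ∀ q g S, g ≤ T → Tok T lo hi lam rho Q c S q g → t q ≤ g := by
    intro q g S hg h
    have hex : ∃ g, g ≤ T ∧ ∃ S, Tok T lo hi lam rho Q c S q g := ⟨g, hg, S, h⟩
    simp only [t, dif_pos hex]
    exact Nat.find_min' hex ⟨hg, S, h⟩
  have ht2 : ∀ q, t q ≤ T → ∃ S, Tok T lo hi lam rho Q c S q (t q) := by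
    intro q h
    by_cases hex : ∃ g, g ≤ T ∧ ∃ S, Tok T lo hi lam rho Q c S q g
    · have h1 := (Nat.find_spec hex).2
      have h2 : t q = Nat.find hex := by simp only [t, dif_pos hex]
      rw [h2]
      exact h1
    · have h2 : t q = T + 1 := by simp only [t, dif_neg hex]
      omega
  refine ⟨t, ?_, ?_, ?_, ?_⟩
  · intro q hq h0
    exact Nat.le_zero.1 (ht1 q 0 ∅ (Nat.zero_le T) (Tok.base q 0 hq h0))
  · intro q hq hR
    by_contra hT
    obtain ⟨S, hS⟩ := ht2 q (by omega)
    obtain ⟨u, hu, huT⟩ := tok_root G T lo hi lam rho hlh hG Q hno S.card c hc hcp S q (t q) rfl (by omega) hS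
    exact hR u hu huT
  · intro q hq hP hT
    obtain ⟨S, hS⟩ := ht2 q hT
    obtain ⟨u, hu, hu0⟩ := hP
    generalize hgq : t q = g at hS
    cases hS with
    | base q g hq h0 => exact absurd hu0 (h0 u hu)
    | step S z q g0 g' h hq hqS hg' hz hq' hcc =>
      have h1 := ht1 q g0 (insert z S) (by omega) (Tok.step S z q g0 g0 h hq hqS le_rfl hz hq' hcc)
      have h2 : g0 = g := by omega
      rw [← h2]
      exact hq'
  · intro u w hu hw hne hlt g hg hi1 hgt hi2 hle
    obtain ⟨S, hS⟩ := ht2 (c w) (hle.trans hg)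
    have hS' := hS.mono hle
    by_cases hmem : c u ∈ S
    · obtain ⟨S', g', h1, h2⟩ := hS'.sub hmem
      have h3 := ht1 (c u) g' S' (h1.trans hg) h2
      omega
    · have hn : c u ∉ insert (c w) S := by
        simp only [Finset.mem_insert, not_or]
        exact ⟨hne, hmem⟩
      have h2 : Tok T lo hi lam rho Q c (insert (c w) S) (c u) g := by
        refine Tok.step S (c w) (c u) g g hS' (hc u) hn le_rfl hi2 hi1 ?_
        intro u' w' hu' hu0 hw' hwT
        rw [huniq u' u hu0 hu hu', huniq' w' w hwT hw hw']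
        exact hlt
      have h3 := ht1 (c u) g _ hg h2
      omega

end Pool.Agent.Lib.MP_534936_co.HW
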