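import Pool.Agent.Lib.MP_534936_co.HW.D9
import Pool.Agent.Lib.MP_534936_co.HW.K2
import Pool.Agent.Lib.MP_534936_co.HW.E1
import Pool.Agent.Lib.MP_534936_co.Induct
import Pool.Agent.Lib.MP_534936_co.Gql

/-!
# The minor in a critical family

`v` is a shortest arc, `a v = 0`, `L = l v`. The common arcs `com` (different from `v`, containing `0` and `L`) are
pairwise adjacent and adjacent to `v` and to every arc which contains `0` or `L`. `Q` = colours `< n` which no common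
arc has. Line: `W = {u // u ≠ v ∧ c u ∈ Q}` (no common arcs; if `L = 0` then all neighbours of `v` are common,
`Q = ∅` and there is nothing to do: `v` and the `n` common arcs form a clique).
`kempe` for `G.comap (Subtype.val : W → V)`: a colouring `c'` of `W` with colours in `Q` which misses the colour `q ∈ Q` on the
arcs containing `0` or `L` gives the colouring `c'` on `W`, `q` on `v`, `c` elsewhere of `G` with `n` colours.
`line_sets` gives `Q.card` sets, together with `{v}` and the singletons of the `n - Q.card` common arcs (they have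
different colours; take one for every colour `< n` which is not in `Q`) `n + 1` sets.
-/

set_option autoImplicit false

namespace Pool.Agent.Lib.MP_534936_co.HW

open Pool.Agent.Lib.MP_534936_co

private theorem E2_connImage {V W : Type} (G : SimpleGraph V) (φ : W → V) (S : Set W)
    (h : ((G.comap φ).induce S).Connected) : (G.induce (φ '' S)).Connected := by
  obtain ⟨F, hF⟩ : ∃ F : (G.comap φ).induce S →g G.induce (φ '' S), ∀ x, (F x).1 = φ x.1 :=
    ⟨⟨fun x => ⟨φ x.1, Set.mem_image_of_mem φ x.2⟩, fun {x y} hxy => hxy⟩, fun x => rfl⟩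
  refine SimpleGraph.Connected.map F ?_ h
  rintro ⟨v, x, hx, hxv⟩
  refine ⟨⟨x, hx⟩, Subtype.ext ?_⟩
  rw [hF]
  exact hxv

/-- `v`, one common vertex for every colour outside `Q`, and the branch sets in the rest -/
private theorem E2_glue {V : Type} (G : SimpleGraph V) (n : ℕ) (v : V) (c : V → ℕ) (Q : Finset ℕ)
    (hQ : Q ⊆ Finset.range n) (com : V → Prop) (hcomv : ∀ u, com u → u ≠ v)
    (hcom : ∀ q, q < n → q ∉ Q → ∃ u, com u ∧ c u = q)
    (hcc : ∀ u w, com u → com w → u ≠ w → G.Adj u w) (hvc : ∀ u, com u → G.Adj v u)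
    (f : Fin Q.card → Set V) (hf1 : ∀ k, (G.induce (f k)).Connected)
    (hf2 : ∀ k, ∀ u ∈ f k, u ≠ v ∧ c u ∈ Q)
    (hf3 : ∀ k, ∃ u ∈ f k, G.Adj v u ∧ ∀ w, com w → G.Adj u w)
    (hf4 : ∀ k k', k ≠ k' → Disjoint (f k) (f k') ∧ ∃ x ∈ f k, ∃ y ∈ f k', G.Adj x y) :
    HasMinor G (n + 1) := by
  classical
  have hch : ∀ q : {q : ℕ // q ∈ Finset.range n \ Q}, ∃ u, com u ∧ c u = q.1 := by
    intro q
    have h := Finset.mem_sdiff.1 q.2
    exact hcom q.1 (Finset.mem_range.1 h.1) h.2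
  choose g hg1 hg2 using hch
  have hgQ : ∀ q, c (g q) ∉ Q := by
    intro q
    rw [hg2 q]
    exact (Finset.mem_sdiff.1 q.2).2
  let F : Option (Fin Q.card ⊕ {q : ℕ // q ∈ Finset.range n \ Q}) → Set V := fun i =>
    match i with
    | none => {v}
    | some (Sum.inl k) => f k
    | some (Sum.inr q) => {g q}
  have hcard : Fintype.card (Option (Fin Q.card ⊕ {q : ℕ // q ∈ Finset.range n \ Q})) = n + 1 := by
    have h := Finset.card_sdiff_add_card_eq_card hQ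
    rw [Finset.card_range] at h
    rw [Fintype.card_option, Fintype.card_sum, Fintype.card_fin, Fintype.card_coe]
    omega
  have hsymm : ∀ A B : Set V, (Disjoint A B ∧ ∃ x ∈ A, ∃ y ∈ B, G.Adj x y) →
      (Disjoint B A ∧ ∃ x ∈ B, ∃ y ∈ A, G.Adj x y) := by
    rintro A B ⟨h1, x, hx, y, hy, h2⟩
    exact ⟨h1.symm, y, hy, x, hx, h2.symm⟩
  have hvf : ∀ k, Disjoint ({v} : Set V) (f k) ∧ ∃ x ∈ ({v} : Set V), ∃ y ∈ f k, G.Adj x y := by
    intro k
    obtain ⟨u, hu, h1, -⟩ := hf3 k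
    refine ⟨?_, v, rfl, u, hu, h1⟩
    rw [Set.disjoint_singleton_left]
    exact fun h => (hf2 k v h).1 rfl
  have hvg : ∀ q, Disjoint ({v} : Set V) {g q} ∧
      ∃ x ∈ ({v} : Set V), ∃ y ∈ ({g q} : Set V), G.Adj x y := by
    intro q
    refine ⟨?_, v, rfl, g q, rfl, hvc _ (hg1 q)⟩
    rw [Set.disjoint_singleton]
    exact fun h => hcomv _ (hg1 q) h.symm
  have hfg : ∀ k q, Disjoint (f k) ({g q} : Set V) ∧
      ∃ x ∈ f k, ∃ y ∈ ({g q} : Set V), G.Adj x y := by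
    intro k q
    obtain ⟨u, hu, -, h1⟩ := hf3 k
    refine ⟨?_, u, hu, g q, rfl, h1 _ (hg1 q)⟩
    rw [Set.disjoint_singleton_right]
    exact fun h => hgQ q (hf2 k _ h).2
  have hgg : ∀ q q', q ≠ q' → Disjoint ({g q} : Set V) {g q'} ∧
      ∃ x ∈ ({g q} : Set V), ∃ y ∈ ({g q'} : Set V), G.Adj x y := by
    intro q q' hne
    have h1 : g q ≠ g q' := by
      intro h
      apply hne
      apply Subtype.ext
      rw [← hg2 q, ← hg2 q', h]
    refine ⟨?_, g q, rfl, g q', rfl, hcc _ _ (hg1 q) (hg1 q') h1⟩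
    rw [Set.disjoint_singleton]
    exact h1
  refine hasMinor_of_equiv G (n + 1) hcard F ?_ ?_
  · rintro (_ | (k | q))
    · exact conn_single G v
    · exact hf1 k
    · exact conn_single G (g q)
  · rintro (_ | (k | q)) (_ | (k' | q')) hne
    · exact absurd rfl hne
    · exact hvf k'
    · exact hvg q'
    · exact hsymm _ _ (hvf k)
    · exact hf4 k k' (fun h => hne (by rw [h]))
    · exact hfg k q'
    · exact hsymm _ _ (hvg q)
    · exact hsymm _ _ (hfg k' q)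
    · exact hgg q q' (fun h => hne (by rw [h]))

theorem crit_minor {V : Type} [Fintype V] (N : ℤ) (hN : 0 < N) (a l : V → ℤ)
    (ha : ∀ v, 0 ≤ a v ∧ a v < N) (hl : ∀ v, 0 ≤ l v ∧ l v < N)
    (G : SimpleGraph V) (hG : ∀ u v, G.Adj u v ↔ u ≠ v ∧ ∃ p, Mem N a l u p ∧ Mem N a l v p)
    (n : ℕ) (v : V) (hv : a v = 0) (hmin : ∀ u, l v ≤ l u)
    (c : V → ℕ) (hc : ∀ u, u ≠ v → c u < n)
    (hcp : ∀ u w, u ≠ v → w ≠ v → G.Adj u w → c u ≠ c w)
    (hno : ¬ ∃ c : V → ℕ, (∀ v, c v < n) ∧ ∀ u v, G.Adj u v → c u ≠ c v) :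
    HasMinor G (n + 1) := by
  classical
  obtain ⟨L, hL⟩ : ∃ L : ℤ, L = l v := ⟨_, rfl⟩
  rw [← hL] at hmin
  have hL0 : 0 ≤ L := by rw [hL]; exact (hl v).1
  have hLN : L < N := by rw [hL]; exact (hl v).2
  have hv0 : Mem N a l v 0 := by
    unfold Mem
    rw [hv, sub_zero, Int.zero_emod, ← hL]
    exact hL0
  have hvL : Mem N a l v L := by
    unfold Mem
    rw [hv, sub_zero, Int.emod_eq_of_lt hL0 hLN, ← hL]
  have hadjv : ∀ u, u ≠ v → (G.Adj v u ↔ (Mem N a l u 0 ∨ Mem N a l u L)) := by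
    intro u hu
    rw [hG]
    constructor
    · rintro ⟨-, p, hp, hp'⟩
      have h1 := end_mem hN (hl v) (by rw [← hL]; exact hmin u) hp hp'
      rw [hv, zero_add, ← hL] at h1
      exact h1
    · rintro (h | h)
      · exact ⟨hu.symm, 0, hv0, h⟩
      · exact ⟨hu.symm, L, hvL, h⟩
  obtain ⟨com, hcomdef⟩ : ∃ com : V → Prop, ∀ u, com u ↔
      (u ≠ v ∧ Mem N a l u 0 ∧ Mem N a l u L) :=
    ⟨fun u => u ≠ v ∧ Mem N a l u 0 ∧ Mem N a l u L, fun _ => Iff.rfl⟩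
  have hcomv : ∀ u, com u → u ≠ v := fun u h => ((hcomdef u).1 h).1
  have hvc : ∀ u, com u → G.Adj v u := fun u h =>
    (hadjv u ((hcomdef u).1 h).1).2 (Or.inl ((hcomdef u).1 h).2.1)
  have hcc : ∀ u w, com u → com w → u ≠ w → G.Adj u w := by
    intro u w hu hw hne
    rw [hG]
    exact ⟨hne, 0, ((hcomdef u).1 hu).2.1, ((hcomdef w).1 hw).2.1⟩
  obtain ⟨Q, hQdef⟩ : ∃ Q : Finset ℕ, Q = (Finset.range n).filter fun q => ∀ u, com u → c u ≠ q :=
    ⟨_, rfl⟩
  have hQmem : ∀ q, q ∈ Q ↔ (q < n ∧ ∀ u, com u → c u ≠ q) := by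
    intro q
    rw [hQdef, Finset.mem_filter, Finset.mem_range]
  have hQn : Q ⊆ Finset.range n := by
    rw [hQdef]
    exact Finset.filter_subset _ _
  have hcom : ∀ q, q < n → q ∉ Q → ∃ u, com u ∧ c u = q := by
    intro q hq hqQ
    by_contra hcon
    apply hqQ
    rw [hQmem]
    refine ⟨hq, fun u hu h => hcon ⟨u, hu, h⟩⟩
  rcases Q.eq_empty_or_nonempty with hQe | ⟨q0, hq0⟩
  · have hk : ∀ k : Fin Q.card, False := by
      intro k
      have h := k.2
      have h0 : Q.card = 0 := by rw [hQe, Finset.card_empty]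
      omega
    exact E2_glue G n v c Q hQn com hcomv hcom hcc hvc (fun k => (hk k).elim)
      (fun k => (hk k).elim) (fun k => (hk k).elim) (fun k => (hk k).elim) (fun k => (hk k).elim)
  have hcoln : ∀ u, u ≠ v → c u < n := hc
  have hL1 : 1 ≤ L := by
    by_contra hlt
    have hLz : L = 0 := by omega
    apply hno
    have hq1 := (hQmem q0).1 hq0
    have hvy : ∀ y, G.Adj v y → c y ≠ q0 := by
      intro y hy
      have hyv : y ≠ v := hy.ne.symm
      have h1 := (hadjv y hyv).1 hy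
      rw [hLz] at h1
      apply hq1.2
      rw [hcomdef, hLz]
      exact ⟨hyv, h1.elim id id, h1.elim id id⟩
    refine ⟨fun u => if u = v then q0 else c u, ?_, ?_⟩
    · intro u
      by_cases hu : u = v
      · show (if u = v then q0 else c u) < n
        rw [if_pos hu]
        exact hq1.1
      · show (if u = v then q0 else c u) < n
        rw [if_neg hu]
        exact hc u hu
    · intro x y hxy
      show (if x = v then q0 else c x) ≠ (if y = v then q0 else c y)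
      by_cases hx : x = v
      · have hy : y ≠ v := fun h => hxy.ne (by rw [hx, h])
        rw [if_pos hx, if_neg hy]
        rw [hx] at hxy
        exact (hvy y hxy).symm
      · by_cases hy : y = v
        · rw [if_neg hx, if_pos hy]
          rw [hy] at hxy
          exact hvy x hxy.symm
        · rw [if_neg hx, if_neg hy]
          exact hcp x y hx hy hxy
  have hnc : ∀ u : {u : V // u ≠ v ∧ c u ∈ Q},
      ¬ ((0 - a u.1) % N ≤ l u.1 ∧ (L - a u.1) % N ≤ l u.1) := by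
    intro u h
    have h2 := ((hQmem _).1 u.2.2).2 u.1 ((hcomdef u.1).2 ⟨u.2.1, h.1, h.2⟩)
    exact h2 rfl
  obtain ⟨T, hT⟩ : ∃ T : ℕ, T = (N - 1 - L).toNat := ⟨_, rfl⟩
  obtain ⟨lo, hlo⟩ : ∃ lo : {u : V // u ≠ v ∧ c u ∈ Q} → ℕ, ∀ u, lo u = glo L (a u.1) :=
    ⟨fun u => glo L (a u.1), fun _ => rfl⟩
  obtain ⟨hi, hhi⟩ : ∃ hi : {u : V // u ≠ v ∧ c u ∈ Q} → ℕ, ∀ u, hi u = ghi N L (a u.1) (l u.1) :=
    ⟨fun u => ghi N L (a u.1) (l u.1), fun _ => rfl⟩
  obtain ⟨lam, hlam⟩ : ∃ lam : {u : V // u ≠ v ∧ c u ∈ Q} → ℤ, ∀ u, lam u = a u.1 :=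
    ⟨fun u => a u.1, fun _ => rfl⟩
  obtain ⟨rho, hrho⟩ : ∃ rho : {u : V // u ≠ v ∧ c u ∈ Q} → ℤ, ∀ u, rho u = a u.1 + l u.1 - N :=
    ⟨fun u => a u.1 + l u.1 - N, fun _ => rfl⟩
  have hlh : ∀ u, lo u ≤ hi u ∧ hi u ≤ T := by
    intro u
    rw [hlo, hhi, hT]
    exact glo_le_ghi N L (a u.1) (l u.1) hL1 hLN (ha u.1) ⟨hmin u.1, (hl u.1).2⟩ (hnc u)
  have hPR : ∀ u, ¬ (lo u = 0 ∧ hi u = T) := by
    intro u
    rw [hlo, hhi, hT]
    exact not_both N L (a u.1) (l u.1) hL1 hLN (ha u.1) ⟨hmin u.1, (hl u.1).2⟩ (hnc u)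
  have hlo0 : ∀ u, lo u = 0 ↔ Mem N a l u.1 L := by
    intro u
    rw [hlo]
    exact glo_zero N L (a u.1) (l u.1) hL1 hLN (ha u.1) ⟨hmin u.1, (hl u.1).2⟩ (hnc u)
  have hhiT : ∀ u, hi u = T ↔ Mem N a l u.1 0 := by
    intro u
    rw [hhi, hT]
    exact ghi_T N L (a u.1) (l u.1) hL1 hLN (ha u.1) ⟨hmin u.1, (hl u.1).2⟩ (hnc u)
  have hmeet : ∀ u w : {u : V // u ≠ v ∧ c u ∈ Q}, G.Adj u.1 w.1 ↔ (u ≠ w ∧
      ((lo u ≤ hi w + 1 ∧ lo w ≤ hi u + 1) ∨ (lo u = 0 ∧ hi w = T ∧ lam u ≤ rho w) ∨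
        (lo w = 0 ∧ hi u = T ∧ lam w ≤ rho u))) := by
    intro u w
    have h := meet_iff N L (a u.1) (l u.1) (a w.1) (l w.1) hL1 hLN (ha u.1)
      ⟨hmin u.1, (hl u.1).2⟩ (ha w.1) ⟨hmin w.1, (hl w.1).2⟩ (hnc u) (hnc w)
    rw [hG, hlo, hlo, hhi, hhi, hlam, hlam, hrho, hrho, hT]
    constructor
    · rintro ⟨h1, h2⟩
      exact ⟨fun h3 => h1 (congrArg Subtype.val h3), h.1 h2⟩
    · rintro ⟨h1, h2⟩
      exact ⟨fun h3 => h1 (Subtype.ext h3), h.2 h2⟩
  have hnoW : ∀ c' : {u : V // u ≠ v ∧ c u ∈ Q} → ℕ, (∀ u, c' u ∈ Q) →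
      (∀ u w, (G.comap (Subtype.val : {u : V // u ≠ v ∧ c u ∈ Q} → V)).Adj u w → c' u ≠ c' w) →
      ∀ q ∈ Q, ∃ u, c' u = q ∧ (lo u = 0 ∨ hi u = T) := by
    intro c' h1 h2 q hq
    by_contra hcon
    apply hno
    obtain ⟨C, hC⟩ : ∃ C : V → ℕ, ∀ u, C u =
        if h : u ≠ v ∧ c u ∈ Q then c' ⟨u, h⟩ else if u = v then q else c u := ⟨_, fun _ => rfl⟩
    have hCv : C v = q := by
      rw [hC, dif_neg (fun h => h.1 rfl), if_pos rfl]
    have hCW : ∀ u (h : u ≠ v ∧ c u ∈ Q), C u = c' ⟨u, h⟩ := by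
      intro u h
      rw [hC, dif_pos h]
    have hCo : ∀ u, u ≠ v → c u ∉ Q → C u = c u := by
      intro u hu h
      rw [hC, dif_neg (fun h3 => h h3.2), if_neg hu]
    have hvy : ∀ y, G.Adj v y → C y ≠ q := by
      intro y hy he
      have hyv : y ≠ v := hy.ne.symm
      by_cases hyQ : c y ∈ Q
      · rw [hCW y ⟨hyv, hyQ⟩] at he
        apply hcon
        refine ⟨⟨y, hyv, hyQ⟩, he, ?_⟩
        rcases (hadjv y hyv).1 hy with h3 | h3
        · exact Or.inr ((hhiT ⟨y, hyv, hyQ⟩).2 h3)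
        · exact Or.inl ((hlo0 ⟨y, hyv, hyQ⟩).2 h3)
      · rw [hCo y hyv hyQ] at he
        rw [he] at hyQ
        exact hyQ hq
    refine ⟨C, ?_, ?_⟩
    · intro u
      by_cases hu : u = v
      · rw [hu, hCv]
        exact ((hQmem q).1 hq).1
      · by_cases huQ : c u ∈ Q
        · rw [hCW u ⟨hu, huQ⟩]
          exact ((hQmem _).1 (h1 _)).1
        · rw [hCo u hu huQ]
          exact hc u hu
    · intro x y hxy
      by_cases hx : x = v
      · rw [hx] at hxy ⊢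
        rw [hCv]
        exact (hvy y hxy).symm
      · by_cases hy : y = v
        · rw [hy] at hxy ⊢
          rw [hCv]
          exact hvy x hxy.symm
        · by_cases hxQ : c x ∈ Q
          · by_cases hyQ : c y ∈ Q
            · rw [hCW x ⟨hx, hxQ⟩, hCW y ⟨hy, hyQ⟩]
              exact h2 ⟨x, hx, hxQ⟩ ⟨y, hy, hyQ⟩ hxy
            · rw [hCW x ⟨hx, hxQ⟩, hCo y hy hyQ]
              intro h3
              have h4 := h1 ⟨x, hx, hxQ⟩
              rw [h3] at h4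
              exact hyQ h4
          · by_cases hyQ : c y ∈ Q
            · rw [hCW y ⟨hy, hyQ⟩, hCo x hx hxQ]
              intro h3
              have h4 := h1 ⟨y, hy, hyQ⟩
              rw [← h3] at h4
              exact hxQ h4
            · rw [hCo x hx hxQ, hCo y hy hyQ]
              exact hcp x y hx hy hxy
  have hcpW : ∀ u w, (G.comap (Subtype.val : {u : V // u ≠ v ∧ c u ∈ Q} → V)).Adj u w →
      c u.1 ≠ c w.1 := fun u w h => hcp u.1 w.1 u.2.1 w.2.1 h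
  have hun : ∀ u w : {u : V // u ≠ v ∧ c u ∈ Q}, lo u = 0 → lo w = 0 → c u.1 = c w.1 → u = w := by
    intro u w h1 h2 h3
    by_contra hne
    refine hcp u.1 w.1 u.2.1 w.2.1 ?_ h3
    rw [hG]
    exact ⟨fun h => hne (Subtype.ext h), L, (hlo0 u).1 h1, (hlo0 w).1 h2⟩
  have hun' : ∀ u w : {u : V // u ≠ v ∧ c u ∈ Q}, hi u = T → hi w = T → c u.1 = c w.1 → u = w := by
    intro u w h1 h2 h3
    by_contra hne
    refine hcp u.1 w.1 u.2.1 w.2.1 ?_ h3
    rw [hG]
    exact ⟨fun h => hne (Subtype.ext h), 0, (hhiT u).1 h1, (hhiT w).1 h2⟩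
  obtain ⟨t, t1, t2, t3, t4⟩ := kempe (G.comap (Subtype.val : {u : V // u ≠ v ∧ c u ∈ Q} → V)) T
    lo hi lam rho hlh (fun u w h => (hmeet u w).1 h) Q hnoW (fun u => c u.1) (fun u => u.2.2)
    hcpW hun hun'
  obtain ⟨f, f1, f2, f3⟩ := line_sets
    (G.comap (Subtype.val : {u : V // u ≠ v ∧ c u ∈ Q} → V)) T lo hi lam rho hlh hPR
    (fun u w h1 h2 h3 => (hmeet u w).2 ⟨h1, Or.inl ⟨h2, h3⟩⟩)
    (fun u w h1 h2 h3 => (hmeet u w).2 ⟨fun h => hPR w ⟨by rw [← h]; exact h1, h2⟩,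
      Or.inr (Or.inl ⟨h1, h2, h3⟩)⟩)
    Q (fun u => c u.1) (fun u => u.2.2) hcpW (hnoW (fun u => c u.1) (fun u => u.2.2) hcpW)
    t t1 t2 t3 t4
  refine E2_glue G n v c Q hQn com hcomv hcom hcc hvc (fun k => Subtype.val '' f k) ?_ ?_ ?_ ?_
  · intro k
    exact E2_connImage G Subtype.val (f k) (f1 k)
  · rintro k u ⟨w, -, rfl⟩
    exact w.2
  · intro k
    obtain ⟨u, hu, h1⟩ := f2 k
    have h2 : Mem N a l u.1 0 ∨ Mem N a l u.1 L := by
      rcases h1 with h1 | h1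
      · exact Or.inr ((hlo0 u).1 h1)
      · exact Or.inl ((hhiT u).1 h1)
    refine ⟨u.1, Set.mem_image_of_mem _ hu, (hadjv u.1 u.2.1).2 h2, ?_⟩
    intro w hw
    have hne : u.1 ≠ w := by
      intro h
      exact ((hQmem _).1 u.2.2).2 w hw (by rw [← h])
    rw [hG]
    rcases h2 with h2 | h2
    · exact ⟨hne, 0, h2, ((hcomdef w).1 hw).2.1⟩
    · exact ⟨hne, L, h2, ((hcomdef w).1 hw).2.2⟩
  · intro k k' hne
    obtain ⟨h1, x, hx, y, hy, h2⟩ := f3 k k' hne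
    exact ⟨(Set.disjoint_image_iff Subtype.val_injective).2 h1, x.1, Set.mem_image_of_mem _ hx,
      y.1, Set.mem_image_of_mem _ hy, h2⟩

end Pool.Agent.Lib.MP_534936_co.HW
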