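import Pool.Agent.Lib.MP_534936_co.HW.E2

/-!
# Hadwiger's conjecture for circular-arc graphs

Induction on the number of vertices as in `minor_of_not_colourable` (file `Induct`): if `G` minus some vertex is not
`n`-colourable, use the induction hypothesis and `hasMinor_comap`; otherwise take `v` with `l v` minimal, shift the
starting points by `a v` (`mem_rebase`) and apply `crit_minor`.
-/

set_option autoImplicit false

namespace Pool.Agent.Lib.MP_534936_co.HW

open Pool.Agent.Lib.MP_534936_co

theorem minor_all : ∀ (k : ℕ) (V : Type) [Fintype V], Fintype.card V = k →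
    ∀ (N : ℤ) (_ : 0 < N) (a l : V → ℤ)
    (_ : ∀ v, 0 ≤ a v ∧ a v < N) (_ : ∀ v, 0 ≤ l v ∧ l v < N)
    (G : SimpleGraph V) (_ : ∀ u v, G.Adj u v ↔ u ≠ v ∧ ∃ p, Mem N a l u p ∧ Mem N a l v p)
    (n : ℕ) (_ : ¬ ∃ c : V → ℕ, (∀ v, c v < n) ∧ ∀ u v, G.Adj u v → c u ≠ c v),
    HasMinor G (n + 1) := by
  intro k
  induction k with
  | zero =>
    intro V _ hk N hN a l ha hl G hG n hno
    exfalso
    apply hno
    have hemp : IsEmpty V := Fintype.card_eq_zero_iff.1 hk
    exact ⟨fun _ => 0, fun v => (hemp.false v).elim, fun u => (hemp.false u).elim⟩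
  | succ k ih =>
    intro V _ hk N hN a l ha hl G hG n hno
    classical
    by_cases hcrit : ∀ q, ∃ c : V → ℕ, (∀ v, v ≠ q → c v < n) ∧
      ∀ u v, u ≠ q → v ≠ q → G.Adj u v → c u ≠ c v
    · have hne : (Finset.univ : Finset V).Nonempty := by
        rw [← Finset.card_pos, Finset.card_univ, hk]
        omega
      obtain ⟨x, -, hx⟩ := Finset.exists_min_image Finset.univ l hne
      obtain ⟨c, hc1, hc2⟩ := hcrit x
      refine crit_minor N hN (fun v => (a v - a x) % N) l
        (fun v => ⟨Int.emod_nonneg _ hN.ne', Int.emod_lt_of_pos _ hN⟩) hl G ?_ n x ?_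
        (fun u => hx u (Finset.mem_univ u)) c hc1 hc2 hno
      · intro u v
        rw [hG u v]
        constructor
        · rintro ⟨h4, p, h5, h6⟩
          refine ⟨h4, p - a x, ?_, ?_⟩
          · rw [mem_rebase, sub_add_cancel]
            exact h5
          · rw [mem_rebase, sub_add_cancel]
            exact h6
        · rintro ⟨h4, p, h5, h6⟩
          exact ⟨h4, p + a x, (mem_rebase N a l (a x) u p).1 h5, (mem_rebase N a l (a x) v p).1 h6⟩
      · show (a x - a x) % N = 0
        rw [sub_self]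
        exact Int.zero_emod N
    · push Not at hcrit
      obtain ⟨q, hq⟩ := hcrit
      have hcard : Fintype.card {v : V // v ≠ q} = k := by
        rw [Fintype.card_subtype, Finset.filter_ne', Finset.card_erase_of_mem (Finset.mem_univ q),
          Finset.card_univ, hk]
        rfl
      refine hasMinor_comap G (fun v : {v : V // v ≠ q} => v.1) Subtype.val_injective (n + 1) ?_
      refine ih {v : V // v ≠ q} hcard N hN (fun v => a v.1) (fun v => l v.1)
        (fun v => ha v.1) (fun v => hl v.1) _ ?_ n ?_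
      · intro u v
        rw [SimpleGraph.comap_adj, hG u.1 v.1]
        constructor
        · rintro ⟨h4, h5⟩
          exact ⟨fun h => h4 (congrArg Subtype.val h), h5⟩
        · rintro ⟨h4, h5⟩
          exact ⟨fun h => h4 (Subtype.ext h), h5⟩
      · rintro ⟨c, hc1, hc2⟩
        obtain ⟨u, v, hu, hv, huv, heq⟩ := hq (fun v => if h : v ≠ q then c ⟨v, h⟩ else 0) (by
          intro v hv
          rw [dif_pos hv]
          exact hc1 _)
        rw [dif_pos hu, dif_pos hv] at heq
        exact hc2 ⟨u, hu⟩ ⟨v, hv⟩ huv heq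

theorem hadwiger_all {V : Type} [Fintype V] (N : ℤ) (hN : 0 < N) (a l : V → ℤ)
    (ha : ∀ v, 0 ≤ a v ∧ a v < N) (hl : ∀ v, 0 ≤ l v ∧ l v < N)
    (G : SimpleGraph V) (hG : ∀ u v, G.Adj u v ↔ u ≠ v ∧ ∃ p, Mem N a l u p ∧ Mem N a l v p)
    (k : ℕ) (hk : G.chromaticNumber = (k : ℕ∞)) : HasMinor G k := by
  rcases k with _ | n
  · exact ⟨fun i => i.elim0, fun i => i.elim0, fun i => i.elim0⟩
  · refine minor_all (Fintype.card V) V rfl N hN a l ha hl G hG n ?_
    rintro ⟨c, h1, h2⟩
    have hcol : G.Colorable n := by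
      refine ⟨SimpleGraph.Coloring.mk (fun v => (⟨c v, h1 v⟩ : Fin n)) ?_⟩
      intro u v huv heq
      exact h2 u v huv (congrArg Fin.val heq)
    have h4 := hcol.chromaticNumber_le
    rw [hk] at h4
    have h5 : n + 1 ≤ n := by exact_mod_cast h4
    omega

end Pool.Agent.Lib.MP_534936_co.HW
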