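import Pool.Agent.Lib.MP_534936_co.HW.Idle

/-!
# The swap of two rows to the right of a common idle gap
-/

set_option autoImplicit false

namespace Pool.Agent.Lib.MP_534936_co.HW

/-- the swap of the colours `z` and `q` -/
def swp (z q x : ℕ) : ℕ := if x = z then q else if x = q then z else x

/-- the colouring in which `z` and `q` are swapped to the right of the gap `g` -/
def shiftCol {V : Type} (lo : V → ℕ) (c : V → ℕ) (z q g : ℕ) (u : V) : ℕ :=
  if g < lo u then swp z q (c u) else c u

theorem shiftCol_proper {V : Type} (G : SimpleGraph V) (T : ℕ) (lo hi : V → ℕ) (lam rho : V → ℤ)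
    (hlh : ∀ u, lo u ≤ hi u ∧ hi u ≤ T)
    (hG : ∀ u w, G.Adj u w → u ≠ w ∧ ((lo u ≤ hi w + 1 ∧ lo w ≤ hi u + 1) ∨
      (lo u = 0 ∧ hi w = T ∧ lam u ≤ rho w) ∨ (lo w = 0 ∧ hi u = T ∧ lam w ≤ rho u)))
    (c : V → ℕ) (hcp : ∀ u w, G.Adj u w → c u ≠ c w) (z q g : ℕ)
    (hz : Idle lo hi c z g) (hq : Idle lo hi c q g)
    (hzq : ∀ u w, c u = q → lo u = 0 → c w = z → hi w = T → rho w < lam u)
    (hqR : ∀ u, c u = q → hi u ≠ T) :
    ∀ u w, G.Adj u w → shiftCol lo c z q g u ≠ shiftCol lo c z q g w := by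
  have swp_inj : ∀ x y, swp z q x = swp z q y → x = y := by
    intro x y h
    unfold swp at h
    split_ifs at h with h1 h2 h3 h4 h5 h6 h7 h8 <;> omega
  have key : ∀ u w, G.Adj u w → g < lo u → ¬ g < lo w → swp z q (c u) ≠ c w := by
    intro u w huw hu hw heq
    have hne := hcp u w huw
    obtain ⟨h0, hA⟩ := hG u w huw
    have hw' : lo w ≤ g := by omega
    unfold swp at heq
    split_ifs at heq with h1 h2
    · -- `c u = z`, `c w = q`
      have hi1 : hi w < g := by
        by_contra hc
        exact hq w heq.symm ⟨hw', by omega⟩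
      rcases hA with ⟨a, b⟩ | ⟨a, b, d⟩ | ⟨a, b, d⟩
      · omega
      · omega
      · have := hzq w u heq.symm a h1 b
        omega
    · have hi1 : hi w < g := by
        by_contra hc
        exact hz w heq.symm ⟨hw', by omega⟩
      rcases hA with ⟨a, b⟩ | ⟨a, b, d⟩ | ⟨a, b, d⟩
      · omega
      · omega
      · exact hqR u h2 b
    · exact hne heq
  intro u w huw
  unfold shiftCol
  split_ifs with h1 h2 h2
  · exact fun h => hcp u w huw (swp_inj _ _ h)
  · exact key u w huw h1 h2
  · exact fun h => key w u huw.symm h2 h1 h.symm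
  · exact hcp u w huw

end Pool.Agent.Lib.MP_534936_co.HW
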